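import Pool.Agent.H61.GLH.CircleCount

/-! A sharp lower bound for the number of zeros in a disc from circle averages, with a slope
parameter. -/

set_option autoImplicit false

open Complex Set Filter Topology Metric Real MeasureTheory

namespace Pool.Agent.H61.NL

open Pool.Agent.H61.GLH (circleAverage_abs_re finite_zeros factor_finset exists_log)

theorem circle_count {F : ℂ → ℂ} {c : ℂ} {U : Set ℂ} {r₁ s R ρ u v Λ θ : ℝ} (hU : IsOpen U)
    (hθ0 : 0 ≤ θ) (hθ1 : θ ≤ 1 / 2)
    (hFa : AnalyticOnNhd ℂ F U) (hball : closedBall c R ⊆ U) (hr₁ : 0 < r₁) (hr₁R : r₁ < R)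
    (hs : 0 < s) (hρ : 0 < ρ) (hsR : s + 2 * ρ < R) (hu : 0 ≤ u) (hv : 0 ≤ v) (hΛ : 0 < Λ)
    (hUp : ∀ z ∈ closedBall c R, ‖F z‖ ≤ Real.exp ((θ * |(z - c).re| + u) * Λ))
    (hLow : ∀ z0 ∈ sphere c s, ∃ z : ℂ, ‖z - z0‖ ≤ ρ ∧
      Real.exp ((θ * |(z - c).re| - v) * Λ) ≤ ‖F z‖) :
    ∃ Z : Finset ℂ, (∀ z ∈ Z, z ∈ ball c R) ∧
      (2 * θ * (s - r₁) / π - (ρ / 2 + v + 2 * (R / 2 + u + v + 1) * ρ / (R - s - 2 * ρ)) - u) * Λ ≤
        ((∑ z ∈ Z, analyticOrderNatAt F z : ℕ) : ℝ) * Real.log (R / r₁) := by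
  classical
  have hπ := Real.pi_pos
  have hR : 0 < R := by linarith
  have hRC : (R : ℂ) ≠ 0 := by exact_mod_cast hR.ne'
  have hFb : AnalyticOnNhd ℂ F (closedBall c R) := hFa.mono hball
  -- a point where F is nonzero
  obtain ⟨z1, hz1, hz1F⟩ := hLow (c + s) (by simp [abs_of_pos hs])
  have hz1b : z1 ∈ closedBall c R := by
    rw [mem_closedBall, dist_eq_norm]
    have e : z1 - c = (z1 - (c + s)) + s := by ring
    have h2 := norm_add_le (z1 - (c + s)) s
    rw [← e, Complex.norm_real, Real.norm_of_nonneg hs.le] at h2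
    linarith
  have hFz1 : F z1 ≠ 0 := by
    intro h0
    rw [h0, norm_zero] at hz1F
    exact absurd hz1F (not_le.mpr (Real.exp_pos _))
  obtain ⟨hfin, hord⟩ := finite_zeros hFb hz1b hFz1
  set Z : Finset ℂ := hfin.toFinset.filter (fun z => z ∈ ball c R) with hZdef
  have hZ : ∀ z, z ∈ Z ↔ z ∈ ball c R ∧ F z = 0 := by
    intro z
    rw [hZdef, Finset.mem_filter, Set.Finite.mem_toFinset]
    constructor
    · rintro ⟨h1, h2⟩; exact ⟨h2, h1.2⟩
    · rintro ⟨h1, h2⟩; exact ⟨⟨ball_subset_closedBall h1, h2⟩, h1⟩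
  refine ⟨Z, fun z hz => ((hZ z).mp hz).1, ?_⟩
  set m : ℂ → ℕ := fun z => analyticOrderNatAt F z with hm
  obtain ⟨g0, hg0a, hg0e, hg0Z⟩ := factor_finset hU Z hFa
    (fun w hw => hball (ball_subset_closedBall ((hZ w).mp hw).1))
    (fun w hw => hord w (ball_subset_closedBall ((hZ w).mp hw).1))
  have hg00 : ∀ z ∈ ball c R, g0 z ≠ 0 := by
    intro z hz h0
    by_cases hfz : F z = 0
    · exact hg0Z z ((hZ z).mpr ⟨hz, hfz⟩) h0
    · apply hfz; rw [hg0e z (hball (ball_subset_closedBall hz)), h0, mul_zero]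
  -- Blaschke denominators
  set b : ℂ → ℂ → ℂ := fun w z => ((R : ℂ) ^ 2 - (starRingEnd ℂ) (w - c) * (z - c)) / R with hb
  have hbd : ∀ w, Differentiable ℂ (b w) := by
    intro w; rw [hb]; fun_prop
  have hbsphere : ∀ w, ∀ z ∈ sphere c R, ‖b w z‖ = ‖z - w‖ := by
    intro w z hz
    have hz' : ‖z - c‖ = R := by simpa [dist_eq_norm] using hz
    have h2 : (R : ℂ) ^ 2 = (starRingEnd ℂ) (z - c) * (z - c) := by
      rw [← Complex.normSq_eq_conj_mul_self, Complex.normSq_eq_norm_sq, hz']
      push_cast; ring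
    rw [hb]
    simp only
    rw [h2, ← sub_mul, ← map_sub, norm_div, norm_mul, Complex.norm_conj, hz',
      Complex.norm_real, Real.norm_of_nonneg hR.le]
    have : z - c - (w - c) = z - w := by ring
    rw [this]
    field_simp
  have hbge : ∀ w ∈ ball c R, ∀ z ∈ closedBall c R, ‖z - w‖ ≤ ‖b w z‖ := by
    intro w hw z hz
    rw [mem_ball, dist_eq_norm] at hw
    rw [mem_closedBall, dist_eq_norm] at hz
    have h1 : ‖b w z‖ = ‖(R : ℂ) ^ 2 - (starRingEnd ℂ) (w - c) * (z - c)‖ / R := by
      rw [hb]; simp only; rw [norm_div, Complex.norm_real, Real.norm_of_nonneg hR.le]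
    rw [h1, le_div_iff₀ hR]
    have h2 : (‖z - w‖ * R) ^ 2 ≤ ‖(R : ℂ) ^ 2 - (starRingEnd ℂ) (w - c) * (z - c)‖ ^ 2 := by
      have e1 : z - w = (z - c) - (w - c) := by ring
      rw [e1]
      set p := z - c with hp
      set o := w - c with ho
      have h3 : ‖p‖ ^ 2 = p.re ^ 2 + p.im ^ 2 := by
        rw [← Complex.normSq_eq_norm_sq, Complex.normSq_apply]; ring
      have h4 : ‖o‖ ^ 2 = o.re ^ 2 + o.im ^ 2 := by
        rw [← Complex.normSq_eq_norm_sq, Complex.normSq_apply]; ring
      have h5 : ‖p - o‖ ^ 2 = (p.re - o.re) ^ 2 + (p.im - o.im) ^ 2 := by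
        rw [← Complex.normSq_eq_norm_sq, Complex.normSq_apply, Complex.sub_re, Complex.sub_im]; ring
      have h6 : ‖(R : ℂ) ^ 2 - (starRingEnd ℂ) o * p‖ ^ 2 =
          (R ^ 2 - (o.re * p.re + o.im * p.im)) ^ 2 + (o.re * p.im - o.im * p.re) ^ 2 := by
        rw [← Complex.normSq_eq_norm_sq, Complex.normSq_apply]
        have e2 : ((R : ℂ) ^ 2 - (starRingEnd ℂ) o * p).re =
            R ^ 2 - (o.re * p.re + o.im * p.im) := by
          rw [Complex.sub_re, Complex.mul_re, Complex.conj_re, Complex.conj_im]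
          have : ((R : ℂ) ^ 2).re = R ^ 2 := by
            rw [← Complex.ofReal_pow, Complex.ofReal_re]
          rw [this]; ring
        have e3 : ((R : ℂ) ^ 2 - (starRingEnd ℂ) o * p).im =
            -(o.re * p.im - o.im * p.re) := by
          rw [Complex.sub_im, Complex.mul_im, Complex.conj_re, Complex.conj_im]
          have : ((R : ℂ) ^ 2).im = 0 := by
            rw [← Complex.ofReal_pow, Complex.ofReal_im]
          rw [this]; ring
        rw [e2, e3]; ring
      rw [mul_pow, h5, h6]
      have h7 : ‖p‖ ^ 2 ≤ R ^ 2 := pow_le_pow_left₀ (norm_nonneg _) hz 2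
      have h8 : ‖o‖ ^ 2 ≤ R ^ 2 := pow_le_pow_left₀ (norm_nonneg _) hw.le 2
      rw [h3] at h7
      rw [h4] at h8
      nlinarith [mul_nonneg (sub_nonneg.mpr h7) (sub_nonneg.mpr h8)]
    exact (pow_le_pow_iff_left₀ (by positivity) (norm_nonneg _) two_ne_zero).mp h2
  have hb0 : ∀ w ∈ ball c R, ∀ z ∈ ball c R, b w z ≠ 0 := by
    intro w hw z hz h0
    have h1 := hbge w hw z (ball_subset_closedBall hz)
    rw [h0, norm_zero] at h1
    have h2 : z = w := by
      have := le_antisymm h1 (norm_nonneg _)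
      exact sub_eq_zero.mp (norm_eq_zero.mp this)
    subst h2
    rw [mem_ball, dist_eq_norm] at hz
    have h3 : (R : ℂ) ^ 2 - (starRingEnd ℂ) (z - c) * (z - c) = 0 := by
      have : b z z = 0 := h0
      rw [hb] at this
      simp only at this
      rcases div_eq_zero_iff.mp this with h | h
      · exact h
      · exact absurd h hRC
    rw [← Complex.normSq_eq_conj_mul_self, Complex.normSq_eq_norm_sq] at h3
    have h4 : R ^ 2 - ‖z - c‖ ^ 2 = 0 := by exact_mod_cast h3
    have h5 : ‖z - c‖ ^ 2 < R ^ 2 := pow_lt_pow_left₀ hz (norm_nonneg _) two_ne_zero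
    linarith
  set g : ℂ → ℂ := fun z => (∏ w ∈ Z, (b w z) ^ m w) * g0 z with hg
  have hga : AnalyticOnNhd ℂ g U := by
    intro z hz
    have h1 : Differentiable ℂ (fun z => ∏ w ∈ Z, (b w z) ^ m w) := by
      apply Differentiable.fun_finsetProd
      intro w _
      exact (hbd w).pow _
    exact (h1.analyticAt z).mul (hg0a z hz)
  have hg0' : ∀ z ∈ ball c R, g z ≠ 0 := by
    intro z hz
    apply mul_ne_zero _ (hg00 z hz)
    rw [Finset.prod_ne_zero_iff]
    intro w hw
    exact pow_ne_zero _ (hb0 w ((hZ w).mp hw).1 z hz)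
  have hFg : ∀ z ∈ closedBall c R, ‖F z‖ ≤ ‖g z‖ := by
    intro z hz
    rw [hg0e z (hball hz), hg]
    simp only [norm_mul, norm_prod, norm_pow]
    apply mul_le_mul_of_nonneg_right _ (norm_nonneg _)
    apply Finset.prod_le_prod
    · intro w _; positivity
    · intro w hw
      exact pow_le_pow_left₀ (norm_nonneg _) (hbge w ((hZ w).mp hw).1 z hz) _
  set Hc := R / 2 + u with hHc
  have hgup : ∀ z ∈ closedBall c R, ‖g z‖ ≤ Real.exp (Hc * Λ) := by
    intro z hz
    have hgd : DiffContOnCl ℂ g (ball c R) := by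
      apply DifferentiableOn.diffContOnCl
      rw [closure_ball _ hR.ne']
      exact (hga.mono hball).differentiableOn
    refine Complex.norm_le_of_forall_mem_frontier_norm_le isBounded_ball hgd ?_
      (by rw [closure_ball _ hR.ne']; exact hz)
    intro y hy
    rw [frontier_ball _ hR.ne'] at hy
    have h1 : ‖g y‖ = ‖F y‖ := by
      rw [hg0e y (hball (sphere_subset_closedBall hy)), hg]
      simp only [norm_mul, norm_prod, norm_pow]
      congr 1
      exact Finset.prod_congr rfl fun w _ => by rw [hbsphere w y hy]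
    rw [h1]
    refine (hUp y (sphere_subset_closedBall hy)).trans ?_
    apply Real.exp_le_exp.mpr
    apply mul_le_mul_of_nonneg_right _ hΛ.le
    have h2 := Complex.abs_re_le_norm (y - c)
    have h3 : ‖y - c‖ = R := by simpa [dist_eq_norm] using hy
    have h4 : θ * |(y - c).re| ≤ 1 / 2 * R := by
      rw [← h3]; gcongr
    rw [hHc]; linarith
  -- analytic logarithm
  obtain ⟨H, hHd, hHe⟩ := exists_log isOpen_ball (convex_ball c R) ⟨c, mem_ball_self hR⟩
    ((hga.mono (ball_subset_closedBall.trans hball)).differentiableOn) hg0'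
  have hHre : ∀ z ∈ ball c R, Real.log ‖g z‖ = (H z).re := by
    intro z hz
    rw [← hHe z hz, Complex.norm_exp, Real.log_exp]
  have hHup : ∀ z ∈ ball c R, (H z).re ≤ Hc * Λ := by
    intro z hz
    have h1 := hgup z (ball_subset_closedBall hz)
    rw [← hHe z hz, Complex.norm_exp] at h1
    exact Real.exp_le_exp.mp h1
  set E := ρ / 2 + v + 2 * (R / 2 + u + v + 1) * ρ / (R - s - 2 * ρ) with hE
  have hHlow : ∀ z0 ∈ sphere c s, (θ * |(z0 - c).re| - E) * Λ ≤ (H z0).re := by
    intro z0 hz0
    obtain ⟨z, hz, hzF⟩ := hLow z0 hz0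
    have hz0n : ‖z0 - c‖ = s := by simpa [dist_eq_norm] using hz0
    have hzn : ‖z - c‖ ≤ s + ρ := by
      have e : z - c = (z - z0) + (z0 - c) := by ring
      rw [e]
      exact (norm_add_le _ _).trans (by linarith)
    have hzb : z ∈ ball c R := by
      rw [mem_ball, dist_eq_norm]; linarith
    have h1 : (θ * |(z - c).re| - v) * Λ ≤ (H z).re := by
      have h2 := hzF.trans (hFg z (ball_subset_closedBall hzb))
      rw [← hHe z hzb, Complex.norm_exp] at h2
      exact Real.exp_le_exp.mp h2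
    set d := R - s - ρ with hd
    have hd0 : 0 < d := by linarith
    set M := (R / 2 + u + v + 1) * Λ with hM
    have hM0 : 0 < M := by positivity
    have hsub : ∀ w ∈ ball (0 : ℂ) d, z + w ∈ ball c R := by
      intro w hw
      rw [mem_ball, dist_zero_right] at hw
      rw [mem_ball, dist_eq_norm]
      have e : z + w - c = (z - c) + w := by ring
      rw [e]
      exact (norm_add_le _ _).trans_lt (by linarith)
    have hkd : DifferentiableOn ℂ (fun w => H (z + w) - H z) (ball 0 d) := by
      apply DifferentiableOn.sub_const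
      intro w hw
      have h2 : DifferentiableAt ℂ H (z + w) :=
        (hHd (z + w) (hsub w hw)).differentiableAt (isOpen_ball.mem_nhds (hsub w hw))
      exact (h2.comp w (by fun_prop : DifferentiableAt ℂ (fun w => z + w) w)).differentiableWithinAt
    have hmap : Set.MapsTo (fun w => H (z + w) - H z) (ball 0 d) {z | z.re ≤ M} := by
      intro w hw
      show (H (z + w) - H z).re ≤ M
      rw [Complex.sub_re]
      have h2 := hHup _ (hsub w hw)
      have h3 : 0 ≤ θ * |(z - c).re| := by positivity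
      have h4 : -(v * Λ) ≤ (H z).re := by
        refine le_trans ?_ h1
        nlinarith
      rw [hM]
      nlinarith
    have hz0z : z0 - z ∈ ball (0 : ℂ) d := by
      rw [mem_ball, dist_zero_right, norm_sub_rev]; linarith
    have hBC := Complex.borelCaratheodory_zero hM0 hkd hmap hd0 hz0z (by simp)
    have hnz : ‖z0 - z‖ ≤ ρ := by rw [norm_sub_rev]; exact hz
    have h2 : 2 * M * ‖z0 - z‖ / (d - ‖z0 - z‖) ≤ 2 * M * ρ / (R - s - 2 * ρ) := by
      have h5 : 0 < R - s - 2 * ρ := by linarith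
      have h6 : R - s - 2 * ρ ≤ d - ‖z0 - z‖ := by rw [hd]; linarith
      exact div_le_div₀ (by positivity) (by gcongr) h5 h6
    have h3 : |(H z0).re - (H z).re| ≤ 2 * M * ρ / (R - s - 2 * ρ) := by
      have h4 := Complex.abs_re_le_norm (H (z + (z0 - z)) - H z)
      rw [Complex.sub_re, add_sub_cancel] at h4
      rw [add_sub_cancel] at hBC
      exact h4.trans (hBC.trans h2)
    have h4 : |(z0 - c).re| ≤ |(z - c).re| + ρ := by
      have e : (z0 - c).re = (z - c).re + (z0 - z).re := by simp
      rw [e]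
      refine (abs_add_le _ _).trans ?_
      have := (Complex.abs_re_le_norm (z0 - z)).trans hnz
      linarith
    have h5 := (abs_le.mp h3).1
    have e5 : 2 * M * ρ / (R - s - 2 * ρ) =
        (2 * (R / 2 + u + v + 1) * ρ / (R - s - 2 * ρ)) * Λ := by rw [hM]; ring
    rw [e5] at h5
    have h6 : θ * |(z0 - c).re| ≤ θ * |(z - c).re| + ρ / 2 := by
      calc θ * |(z0 - c).re| ≤ θ * (|(z - c).re| + ρ) := by gcongr
        _ = θ * |(z - c).re| + θ * ρ := by ring
        _ ≤ θ * |(z - c).re| + 1 / 2 * ρ := by gcongr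
        _ = _ := by ring
    have h7 : (θ * |(z0 - c).re|) * Λ ≤ (θ * |(z - c).re| + ρ / 2) * Λ := by gcongr
    rw [hE]
    have e7 : (θ * |(z0 - c).re| - (ρ / 2 + v + 2 * (R / 2 + u + v + 1) * ρ / (R - s - 2 * ρ))) *
        Λ = (θ * |(z0 - c).re|) * Λ - ρ / 2 * Λ - v * Λ -
          (2 * (R / 2 + u + v + 1) * ρ / (R - s - 2 * ρ)) * Λ := by ring
    have e8 : (θ * |(z - c).re| + ρ / 2) * Λ = (θ * |(z - c).re| - v) * Λ + ρ / 2 * Λ + v * Λ := by
      ring
    rw [e7]
    rw [e8] at h7
    linarith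
  -- mean value on the circle of radius s
  have hmean : (2 * θ * s / π - E) * Λ ≤ Real.log ‖g c‖ := by
    have hcb : closedBall c |s| ⊆ ball c R := by
      rw [abs_of_pos hs]
      exact closedBall_subset_ball (by linarith)
    have h1 := AnalyticOnNhd.circleAverage_log_norm_of_ne_zero (c := c) (R := s) (g := g)
      (hga.mono (hcb.trans (ball_subset_closedBall.trans hball))) (fun z hz => hg0' z (hcb hz))
    rw [← h1]
    have h2 := circleAverage_abs_re (c := c) hs.le (θ * Λ) (-(E * Λ))
    have h3 : (2 * θ * s / π - E) * Λ = 2 * s / π * (θ * Λ) + -(E * Λ) := by ring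
    rw [h3, ← h2]
    apply circleAverage_mono
    · apply Continuous.intervalIntegrable
      unfold circleMap
      fun_prop
    · apply MeromorphicOn.circleIntegrable_log_norm
      exact (hga.mono ((sphere_subset_closedBall.trans hcb).trans
        (ball_subset_closedBall.trans hball))).meromorphicOn
    · intro z hz
      rw [abs_of_pos hs] at hz
      have hzb : z ∈ ball c R := hcb (by rw [abs_of_pos hs]; exact sphere_subset_closedBall hz)
      rw [hHre z hzb]
      have := hHlow z hz
      linarith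
  -- Jensen on the circle of radius r₁
  have hcb1 : closedBall c |r₁| ⊆ ball c R := by
    rw [abs_of_pos hr₁]
    exact closedBall_subset_ball hr₁R
  have hJup : circleAverage (fun z => Real.log ‖F z‖) c r₁ ≤ (2 * θ * r₁ / π + u) * Λ := by
    have h2 := circleAverage_abs_re (c := c) hr₁.le (θ * Λ) (u * Λ)
    have h3 : (2 * θ * r₁ / π + u) * Λ = 2 * r₁ / π * (θ * Λ) + u * Λ := by ring
    rw [h3, ← h2]
    apply circleAverage_mono
    · apply MeromorphicOn.circleIntegrable_log_norm
      exact (hFa.mono ((sphere_subset_closedBall.trans hcb1).trans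
        (ball_subset_closedBall.trans hball))).meromorphicOn
    · apply Continuous.intervalIntegrable
      unfold circleMap
      fun_prop
    · intro z hz
      have hzb : z ∈ closedBall c R := ball_subset_closedBall (hcb1 (sphere_subset_closedBall hz))
      have h4 : |(z - c).re| * (θ * Λ) + u * Λ = (θ * |(z - c).re| + u) * Λ := by ring
      show Real.log ‖F z‖ ≤ |(z - c).re| * (θ * Λ) + u * Λ
      rw [h4]
      by_cases h0 : F z = 0
      · rw [h0, norm_zero, Real.log_zero]; positivity
      · have := Real.log_le_log (norm_pos_iff.mpr h0) (hUp z hzb)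
        rwa [Real.log_exp] at this
  have hJeq : circleAverage (fun z => Real.log ‖F z‖) c r₁ =
      (∑ w ∈ Z, (m w : ℝ) * (circleAverage (fun z => Real.log ‖z - w‖) c r₁ - Real.log R)) +
        Real.log ‖g c‖ := by
    have hbI : ∀ w ∈ Z, circleAverage (fun z => Real.log ‖b w z‖) c r₁ = Real.log R := by
      intro w hw
      have h1 := AnalyticOnNhd.circleAverage_log_norm_of_ne_zero (c := c) (R := r₁) (g := b w)
        (fun z _ => (hbd w).analyticAt z) (fun z hz => hb0 w ((hZ w).mp hw).1 z (hcb1 hz))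
      rw [h1]
      have e : b w c = R := by
        rw [hb]; simp only [sub_self, mul_zero, sub_zero]; field_simp
      rw [e, Complex.norm_real, Real.norm_of_nonneg hR.le]
    have hIb : ∀ w, CircleIntegrable (fun z => Real.log ‖b w z‖) c r₁ := fun w =>
      MeromorphicOn.circleIntegrable_log_norm (fun z _ => ((hbd w).analyticAt z).meromorphicAt)
    have hIw : ∀ w, CircleIntegrable (fun z => Real.log ‖z - w‖) c r₁ := fun w =>
      circleIntegrable_log_norm_sub_const r₁
    have hIg : CircleIntegrable (fun z => Real.log ‖g z‖) c r₁ :=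
      MeromorphicOn.circleIntegrable_log_norm ((hga.mono ((sphere_subset_closedBall.trans
        hcb1).trans (ball_subset_closedBall.trans hball))).meromorphicOn)
    have hIt : ∀ w, CircleIntegrable (fun z => (m w : ℝ) * (Real.log ‖z - w‖ - Real.log ‖b w z‖))
        c r₁ := fun w => ((hIw w).sub (hIb w)).const_mul _
    have h1 : circleAverage (fun z => Real.log ‖F z‖) c r₁ =
        circleAverage (fun z => (∑ w ∈ Z, (m w : ℝ) * (Real.log ‖z - w‖ - Real.log ‖b w z‖)) +
          Real.log ‖g z‖) c r₁ := by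
      apply circleAverage_congr_codiscreteWithin _ hr₁.ne'
      have hcod : {z : ℂ | z ∉ Z} ∈ codiscreteWithin (sphere c |r₁|) := by
        apply codiscreteWithin_mono (subset_univ _)
        exact Z.finite_toSet.compl_mem_codiscrete
      filter_upwards [hcod, self_mem_codiscreteWithin _] with z hz hz2
      have hzb : z ∈ ball c R := hcb1 (sphere_subset_closedBall hz2)
      have hnb : ∀ w ∈ Z, ‖b w z‖ ≠ 0 := fun w hw =>
        norm_ne_zero_iff.mpr (hb0 w ((hZ w).mp hw).1 z hzb)
      have hnw : ∀ w ∈ Z, ‖z - w‖ ≠ 0 := fun w hw =>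
        norm_ne_zero_iff.mpr (sub_ne_zero.mpr (fun h => hz (h ▸ hw)))
      have e1 : Real.log ‖F z‖ = (∑ w ∈ Z, (m w : ℝ) * Real.log ‖z - w‖) + Real.log ‖g0 z‖ := by
        rw [hg0e z (hball (ball_subset_closedBall hzb)), norm_mul, norm_prod,
          Real.log_mul (Finset.prod_ne_zero_iff.mpr fun w hw => by
            rw [norm_pow]; exact pow_ne_zero _ (hnw w hw)) (norm_ne_zero_iff.mpr (hg00 z hzb)),
          Real.log_prod (fun w hw => by rw [norm_pow]; exact pow_ne_zero _ (hnw w hw))]
        congr 1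
        exact Finset.sum_congr rfl fun w _ => by rw [norm_pow, Real.log_pow]
      have e2 : Real.log ‖g z‖ = (∑ w ∈ Z, (m w : ℝ) * Real.log ‖b w z‖) + Real.log ‖g0 z‖ := by
        rw [hg]
        simp only
        rw [norm_mul, norm_prod,
          Real.log_mul (Finset.prod_ne_zero_iff.mpr fun w hw => by
            rw [norm_pow]; exact pow_ne_zero _ (hnb w hw)) (norm_ne_zero_iff.mpr (hg00 z hzb)),
          Real.log_prod (fun w hw => by rw [norm_pow]; exact pow_ne_zero _ (hnb w hw))]
        congr 1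
        exact Finset.sum_congr rfl fun w _ => by rw [norm_pow, Real.log_pow]
      rw [e1, e2]
      simp only [mul_sub]
      rw [Finset.sum_sub_distrib]
      ring
    rw [h1, circleAverage_fun_add (CircleIntegrable.fun_sum Z fun w _ => hIt w) hIg,
      circleAverage_fun_sum (fun w _ => hIt w)]
    congr 1
    · apply Finset.sum_congr rfl
      intro w hw
      have e3 : circleAverage (fun z => (m w : ℝ) * (Real.log ‖z - w‖ - Real.log ‖b w z‖)) c r₁ =
          (m w : ℝ) * circleAverage (fun z => Real.log ‖z - w‖ - Real.log ‖b w z‖) c r₁ := by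
        have := circleAverage_fun_smul (a := (m w : ℝ)) (c := c) (R := r₁)
          (f := fun z => Real.log ‖z - w‖ - Real.log ‖b w z‖)
        simpa only [smul_eq_mul] using this
      rw [e3, circleAverage_fun_sub (hIw w) (hIb w), hbI w hw]
    · exact AnalyticOnNhd.circleAverage_log_norm_of_ne_zero (c := c) (R := r₁) (g := g)
        (hga.mono (hcb1.trans (ball_subset_closedBall.trans hball))) (fun z hz => hg0' z (hcb1 hz))
  have hge : ∀ w ∈ Z, -((m w : ℝ) * Real.log (R / r₁)) ≤
      (m w : ℝ) * (circleAverage (fun z => Real.log ‖z - w‖) c r₁ - Real.log R) := by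
    intro w _
    have h1 := circleAverage_log_norm_sub_const_eq_log_radius_add_posLog (c := c) (a := w)
      (R := r₁) hr₁.ne'
    have h2 : 0 ≤ log⁺ (r₁⁻¹ * ‖c - w‖) := posLog_nonneg
    rw [h1, Real.log_div hR.ne' hr₁.ne', ← mul_neg]
    gcongr
    linarith
  have hsum := Finset.sum_le_sum hge
  rw [Finset.sum_neg_distrib, ← Finset.sum_mul] at hsum
  rw [hJeq] at hJup
  have hcast : ((∑ z ∈ Z, analyticOrderNatAt F z : ℕ) : ℝ) = ∑ w ∈ Z, (m w : ℝ) := by
    push_cast; rfl
  rw [hcast]
  have e6 : (2 * θ * (s - r₁) / π - E - u) * Λ = (2 * θ * s / π - E) * Λ - (2 * θ * r₁ / π + u) * Λ := by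
    ring
  rw [e6]
  linarith

end Pool.Agent.H61.NL
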