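import Pool.Agent.H61.NL.GoodPts
import Pool.Agent.H61.NL.Circle

/-! Under the Lindelof bound the zeros near the critical line have full density in short windows. -/

set_option autoImplicit false

open Complex Set Filter Topology Metric

namespace Pool.Agent.H61.NL

section family

variable {ι : Type*} {m : ℕ} {K : ℝ} {X Q : ι → ℝ → ℝ} {f : ι → ℂ → ℂ}

/-- The functional equation as a lower bound to the left of the critical line, in a vertical strip
of width `2 ρ₁` (away from the trivial zeros) near any given line. -/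
def FELow (Q : ι → ℝ → ℝ) (f : ι → ℂ → ℂ) : Prop :=
  ∀ ρ : ℝ, 0 < ρ → ρ ≤ 1 / 8 → ∃ K₂ ρ₁ : ℝ, 1 ≤ K₂ ∧ 0 < ρ₁ ∧ ρ₁ ≤ ρ / 2 ∧ ∀ i, ∀ x0 : ℝ, 0 ≤ x0 →
    x0 ≤ 1 / 8 → ∃ x1 : ℝ, ρ₁ ≤ x1 ∧ |x1 - x0| ≤ ρ / 2 ∧ ∀ x u : ℝ, |x - x1| ≤ ρ₁ →
      Q i u ^ x * ‖f i (1 / 2 + x + u * I)‖ ≤ K₂ * ‖f i (1 / 2 - x + u * I)‖

lemma two_pow_rpow {m : ℕ} {x : ℝ} (_hx0 : 0 ≤ x) (hx1 : x ≤ 1) : ((2:ℝ) ^ m) ^ x ≤ 2 ^ m := by
  have h1 : (1:ℝ) ≤ 2 ^ m := one_le_pow₀ (by norm_num)
  calc ((2:ℝ) ^ m) ^ x ≤ ((2:ℝ) ^ m) ^ (1:ℝ) := Real.rpow_le_rpow_of_exponent_le h1 hx1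
    _ = 2 ^ m := Real.rpow_one _

lemma near_shift {Y : ℝ → ℝ} (h1 : ∀ t, 1 ≤ Y t) (hs : ∀ t u, Y u ≤ Y t * (1 + |u - t|) ^ m)
    {t u : ℝ} (h : |u - t| ≤ 1) : Y u ≤ 2 ^ m * Y t := by
  have h0 := h1 t
  calc Y u ≤ Y t * (1 + |u - t|) ^ m := hs t u
    _ ≤ Y t * 2 ^ m := by
        have h5 : 1 + |u - t| ≤ 2 := by linarith
        gcongr
    _ = _ := mul_comm _ _

/-- The upper bound near the critical line. -/
lemma near_bound {X Q : ℝ → ℝ} {f : ℂ → ℂ} (hG : Base m K X Q f) (hK : 1 ≤ K) {e B : ℝ}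
    (he : 0 ≤ e) (he1 : e ≤ 1) (hB : 1 ≤ B)
    (hR : ∀ s : ℂ, 1 / 2 ≤ s.re → ‖f s‖ ≤ B * X s.im ^ e) {t : ℝ} {z : ℂ}
    (h1 : |z.re - 1 / 2| ≤ 1 / 4) (h2 : |z.im - t| ≤ 1) :
    ‖f z‖ * Q t ^ ((z.re - 1 / 2) / 2) ≤
      K * B * 4 ^ m * (X t ^ e * Q t ^ (|z.re - 1 / 2| / 2)) := by
  have hX1 := hG.X1 t
  have hQ1 := hG.Q1 t
  have hXz1 := hG.X1 z.im
  have hQz1 := hG.Q1 z.im
  have hXz := near_shift hG.X1 hG.Xs h2
  have hQz := near_shift hG.Q1 hG.Qs h2
  have hX0 : 0 < X t := by linarith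
  have hQ0 : 0 < Q t := by linarith
  have h2m : (1:ℝ) ≤ 2 ^ m := one_le_pow₀ (by norm_num)
  have h4m : (4:ℝ) ^ m = 2 ^ m * 2 ^ m := by rw [← mul_pow]; norm_num
  have hXe : X z.im ^ e ≤ 2 ^ m * X t ^ e := by
    calc X z.im ^ e ≤ (2 ^ m * X t) ^ e := Real.rpow_le_rpow (by linarith) hXz he
      _ = (2 ^ m) ^ e * X t ^ e := Real.mul_rpow (by positivity) hX0.le
      _ ≤ _ := by
          have := two_pow_rpow (m := m) he he1
          gcongr
  rw [abs_le] at h1
  rcases le_or_gt (1 / 2) z.re with h3 | h3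
  · rw [abs_of_nonneg (by linarith)]
    have h4 : 0 ≤ Q t ^ ((z.re - 1 / 2) / 2) := by positivity
    calc ‖f z‖ * Q t ^ ((z.re - 1 / 2) / 2) ≤
          (B * X z.im ^ e) * Q t ^ ((z.re - 1 / 2) / 2) := by
          gcongr
          exact hR z h3
      _ ≤ (B * (2 ^ m * X t ^ e)) * Q t ^ ((z.re - 1 / 2) / 2) := by gcongr
      _ = 1 * B * (2 ^ m * 1) * (X t ^ e * Q t ^ ((z.re - 1 / 2) / 2)) := by ring
      _ ≤ _ := by
          rw [h4m]
          gcongr
  · set x := 1 / 2 - z.re with hx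
    have hx0 : 0 ≤ x := by linarith
    have hx4 : x ≤ 1 / 4 := by linarith
    have e1 : z.re - 1 / 2 = -x := by rw [hx]; ring
    rw [e1, abs_neg, abs_of_nonneg hx0]
    have e2 : z = 1 / 2 - x + z.im * I := by
      apply Complex.ext
      · simp [hx]
      · simp
    have h4 := hG.fe x z.im hx0 hx4
    rw [← e2] at h4
    have h5 := hR (1 / 2 + x + z.im * I) (by simp; linarith)
    have e3 : (1 / 2 + x + z.im * I : ℂ).im = z.im := by simp
    rw [e3] at h5
    have hQx : Q z.im ^ x ≤ 2 ^ m * Q t ^ x := by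
      calc Q z.im ^ x ≤ (2 ^ m * Q t) ^ x := Real.rpow_le_rpow (by linarith) hQz hx0
        _ = (2 ^ m) ^ x * Q t ^ x := Real.mul_rpow (by positivity) hQ0.le
        _ ≤ _ := by
            have := two_pow_rpow (m := m) hx0 (by linarith : x ≤ 1)
            gcongr
    have e4 : Q t ^ x * Q t ^ (-x / 2) = Q t ^ (x / 2) := by
      rw [← Real.rpow_add hQ0]; congr 1; ring
    calc ‖f z‖ * Q t ^ (-x / 2) ≤
          (K * Q z.im ^ x * ‖f (1 / 2 + x + z.im * I)‖) * Q t ^ (-x / 2) := by gcongr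
      _ ≤ (K * (2 ^ m * Q t ^ x) * (B * (2 ^ m * X t ^ e))) * Q t ^ (-x / 2) := by
          gcongr
          refine h5.trans ?_
          gcongr
      _ = K * B * (2 ^ m * 2 ^ m) * (X t ^ e * (Q t ^ x * Q t ^ (-x / 2))) := by ring
      _ = _ := by rw [e4, ← h4m]

theorem disc_count (hG : ∀ i, Base m K (X i) (Q i) (f i)) (hK : 1 ≤ K) (hFar : FarB X f)
    (hLow : FarLow f) (hfe : FELow Q f) (hL : ∀ ε > 0, HB X Q f 0 ε) {R κ : ℝ} (hR : 0 < R)
    (hR1 : R ≤ 1 / 8) (hκ : 0 < κ) :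
    ∃ K₀ : ℝ, ∀ i, ∀ t : ℝ, K₀ ≤ X i t → ∃ Z : Finset ℂ,
      (∀ z ∈ Z, z ∈ ball (1 / 2 + t * I : ℂ) R) ∧
      R / Real.pi * Real.log (Q i t) - κ * Real.log (X i t) ≤
        ((∑ z ∈ Z, analyticOrderNatAt (f i) z : ℕ) : ℝ) := by
  have hπ := Real.pi_pos
  have hπ3 := Real.pi_gt_three
  set κ' := min κ 1 with hκ'
  have hκ'0 : 0 < κ' := lt_min hκ one_pos
  have hκ'1 : κ' ≤ 1 := min_le_right _ _
  have hκ'κ : κ' ≤ κ := min_le_left _ _
  set τ := κ' / 2 with hτ
  have hτ0 : 0 < τ := by positivity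
  have hτ1 : τ ≤ 1 / 2 := by rw [hτ]; linarith
  set u := τ * κ' / 8 with hu
  have hu0 : 0 < u := by positivity
  have hu1 : u ≤ 1 / 16 := by
    rw [hu]; nlinarith
  set ρ := R * τ ^ 3 * κ' / 40 with hρ
  have hρ0 : 0 < ρ := by positivity
  have hτ2 : τ ^ 2 ≤ 1 := by nlinarith
  have hτ3 : τ ^ 3 ≤ τ ^ 2 := by
    have : τ ^ 3 = τ ^ 2 * τ := by ring
    rw [this]
    nlinarith [sq_nonneg τ]
  have hτκ : τ * κ' ≤ 1 := by nlinarith
  have hρ1 : ρ ≤ R * τ ^ 2 / 40 := by
    rw [hρ]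
    have : R * τ ^ 3 * κ' ≤ R * τ ^ 2 * 1 := by gcongr
    linarith
  have hρ2 : ρ ≤ τ * κ' / 320 := by
    have h1 : R * τ ^ 3 * κ' ≤ (1 / 8) * τ * κ' := by
      have h2 : τ ^ 3 ≤ τ := by nlinarith
      gcongr
    rw [hρ]
    linarith
  have hρs : ρ ≤ 1 / 8 := by
    have : R * τ ^ 2 ≤ 1 / 8 * 1 := by gcongr
    linarith
  set r₁ := (1 - τ) * R with hr₁
  set s := R - R * τ ^ 2 with hs
  have hr₁0 : 0 < r₁ := mul_pos (by linarith) hR
  have hr₁R : r₁ < R := by rw [hr₁]; nlinarith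
  have hRτ : 0 < R * τ ^ 2 := by positivity
  have hs0 : 0 < s := by
    have : τ ^ 2 ≤ 1 / 4 := by nlinarith
    rw [hs]
    nlinarith
  have hsR : s + 2 * ρ < R := by rw [hs]; linarith
  -- E is small
  have hE : ρ / 2 + u + 2 * (R / 2 + u + u + 1) * ρ / (R - s - 2 * ρ) + u ≤ τ * κ' / 2 := by
    have h1 : R * τ ^ 2 / 2 ≤ R - s - 2 * ρ := by rw [hs]; linarith
    have h2 : 2 * (R / 2 + u + u + 1) * ρ / (R - s - 2 * ρ) ≤ (5 / 2 * ρ) / (R * τ ^ 2 / 2) := by
      apply div_le_div₀ (by positivity) _ (by positivity) h1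
      nlinarith
    have h3 : (5 / 2 * ρ) / (R * τ ^ 2 / 2) = τ * κ' / 8 := by
      rw [hρ]; field_simp; ring
    rw [h3] at h2
    have h4 : 0 < τ * κ' := by positivity
    rw [hu]
    linarith
  have hlogr : Real.log (R / r₁) ≤ τ / (1 - τ) := by
    have h1 : R / r₁ = 1 / (1 - τ) := by
      rw [hr₁]; field_simp
    rw [h1]
    have h2 := Real.log_le_sub_one_of_pos (show 0 < 1 / (1 - τ) by
      have : 0 < 1 - τ := by linarith
      positivity)
    have h3 : 1 / (1 - τ) - 1 = τ / (1 - τ) := by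
      have : (1 - τ) ≠ 0 := by
        have : 0 < 1 - τ := by linarith
        exact this.ne'
      field_simp
      ring
    linarith
  obtain ⟨B, hB, hHB⟩ := right_bound hG hK hFar (show 0 < u / 2 by positivity)
    (hL (u / 2) (by positivity))
  obtain ⟨K₂, ρ₁, hK₂, hρ₁0, hρ₁, hlow'⟩ := hfe ρ hρ0 hρs
  obtain ⟨Kg, hgood⟩ := good_points hG hK hFar hLow hL hρ0 (show 0 < u / 2 by positivity)
  obtain ⟨Kh, hgood'⟩ := good_points hG hK hFar hLow hL hρ₁0 (show 0 < u / 2 by positivity)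
  set D := K * B * 4 ^ m with hD
  have hD0 : 0 < D := by positivity
  set D' := 2 ^ m * K₂ with hD'
  have hD'0 : 0 < D' := by positivity
  refine ⟨max 2 (max (max Kg Kh) (max (D ^ (2 / u)) (D' ^ (2 / u)))), ?_⟩
  intro i t hC
  have hGi := hG i
  have hX2 : 2 ≤ X i t := (le_max_left _ _).trans hC
  have hXg : Kg ≤ X i t :=
    ((le_max_left _ _).trans ((le_max_left _ _).trans (le_max_right _ _))).trans hC
  have hXh : Kh ≤ X i t :=
    ((le_max_right _ _).trans ((le_max_left _ _).trans (le_max_right _ _))).trans hC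
  have hXD : D ^ (2 / u) ≤ X i t :=
    ((le_max_left _ _).trans ((le_max_right _ _).trans (le_max_right _ _))).trans hC
  have hXK : D' ^ (2 / u) ≤ X i t :=
    ((le_max_right _ _).trans ((le_max_right _ _).trans (le_max_right _ _))).trans hC
  have hX0 : 0 < X i t := by linarith
  have hX1 : 1 ≤ X i t := by linarith
  have hQ1 := hGi.Q1 t
  have hQ0 : 0 < Q i t := by linarith
  have hroot : ∀ {y : ℝ}, 0 ≤ y → y ^ (2 / u) ≤ X i t → y ≤ X i t ^ (u / 2) := by
    intro y hy h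
    have h1 : (y ^ (2 / u)) ^ (u / 2) ≤ X i t ^ (u / 2) :=
      Real.rpow_le_rpow (by positivity) h (by positivity)
    rw [← Real.rpow_mul hy] at h1
    have h2 : 2 / u * (u / 2) = 1 := by field_simp
    rwa [h2, Real.rpow_one] at h1
  have hDX : D ≤ X i t ^ (u / 2) := hroot hD0.le hXD
  have hKX : D' ≤ X i t ^ (u / 2) := hroot hD'0.le hXK
  set L := Real.log (X i t) with hLdef
  have hL0 : 0 < L := Real.log_pos (by linarith)
  set Λ := Real.log (Q i t) with hΛ
  have hΛ0 : 0 ≤ Λ := Real.log_nonneg hQ1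
  have hΛL : Λ ≤ L := Real.log_le_log hQ0 (hGi.QX t)
  set θ := Λ / (2 * L) with hθ
  have hθ0 : 0 ≤ θ := by positivity
  have hθ1 : θ ≤ 1 / 2 := by
    rw [hθ, div_le_iff₀ (by positivity)]; linarith
  have hθL : θ * L = Λ / 2 := by rw [hθ]; field_simp
  have hexpX : ∀ x y : ℝ, Real.exp ((θ * x + y) * L) = Q i t ^ (x / 2) * X i t ^ y := by
    intro x y
    rw [Real.rpow_def_of_pos hX0, Real.rpow_def_of_pos hQ0, ← Real.exp_add]
    congr 1
    have : (θ * x + y) * L = x * (θ * L) + y * L := by ring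
    rw [this, hθL, hΛ, hLdef]; ring
  set c : ℂ := 1 / 2 + t * I with hc
  have hcre : c.re = 1 / 2 := by simp [hc]
  have hcim : c.im = t := by simp [hc]
  have hcl : ∀ z : ℂ, ‖z - c‖ ≤ 1 / 4 → |z.re - 1 / 2| ≤ 1 / 4 ∧ |z.im - t| ≤ 1 / 4 := by
    intro z hz
    have h1 := (Complex.abs_re_le_norm (z - c)).trans hz
    have h2 := (Complex.abs_im_le_norm (z - c)).trans hz
    rw [Complex.sub_re, hcre] at h1
    rw [Complex.sub_im, hcim] at h2
    exact ⟨h1, h2⟩
  set E : ℂ → ℂ := fun z => Complex.exp (((Λ / 2 : ℝ) : ℂ) * (z - c)) with hEdef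
  have hEd : Differentiable ℂ E := by rw [hEdef]; fun_prop
  have hE0 : ∀ z, E z ≠ 0 := fun z => Complex.exp_ne_zero _
  have hEn : ∀ z : ℂ, ‖E z‖ = Q i t ^ ((z.re - 1 / 2) / 2) := by
    intro z
    rw [hEdef]
    simp only
    rw [Complex.norm_exp, Complex.re_ofReal_mul, Complex.sub_re, hcre, Real.rpow_def_of_pos hQ0]
    congr 1
    rw [hΛ]; ring
  set F : ℂ → ℂ := fun z => E z * f i z with hF
  have hFn : ∀ z : ℂ, ‖F z‖ = ‖f i z‖ * Q i t ^ ((z.re - 1 / 2) / 2) := by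
    intro z
    rw [hF]; simp only; rw [norm_mul, hEn, mul_comm]
  set U : Set ℂ := {z : ℂ | 0 < z.re} with hU
  have hUo : IsOpen U := isOpen_lt continuous_const Complex.continuous_re
  have hfd : DifferentiableOn ℂ (f i) U :=
    fun z hz => (hGi.diff z hz).differentiableWithinAt
  have hfa : AnalyticOnNhd ℂ (f i) U := hfd.analyticOnNhd hUo
  have hFa : AnalyticOnNhd ℂ F U := fun z hz => (hEd.analyticAt z).mul (hfa z hz)
  have hball : closedBall c R ⊆ U := by
    intro z hz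
    rw [mem_closedBall, dist_eq_norm] at hz
    have h1 := (hcl z (by linarith)).1
    rw [abs_le] at h1
    show 0 < z.re
    linarith
  have hUp : ∀ z ∈ closedBall c R, ‖F z‖ ≤ Real.exp ((θ * |(z - c).re| + u) * L) := by
    intro z hz
    rw [mem_closedBall, dist_eq_norm] at hz
    obtain ⟨h1, h2⟩ := hcl z (by linarith)
    rw [hFn, hexpX, Complex.sub_re, hcre]
    have h5 := near_bound hGi hK (show 0 ≤ u / 2 by positivity) (by linarith) hB (hHB i) (t := t)
      h1 (by linarith)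
    refine h5.trans ?_
    rw [← hD]
    calc D * (X i t ^ (u / 2) * Q i t ^ (|z.re - 1 / 2| / 2))
        ≤ X i t ^ (u / 2) * (X i t ^ (u / 2) * Q i t ^ (|z.re - 1 / 2| / 2)) := by gcongr
      _ = Q i t ^ (|z.re - 1 / 2| / 2) * (X i t ^ (u / 2) * X i t ^ (u / 2)) := by ring
      _ = Q i t ^ (|z.re - 1 / 2| / 2) * X i t ^ u := by
          rw [← Real.rpow_add hX0]; congr 2; ring
  have hLow : ∀ z0 ∈ sphere c s, ∃ z : ℂ, ‖z - z0‖ ≤ ρ ∧
      Real.exp ((θ * |(z - c).re| - u) * L) ≤ ‖F z‖ := by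
    intro z0 hz0
    have hz0n : ‖z0 - c‖ = s := by simpa [dist_eq_norm] using hz0
    have hsR' : s ≤ 1 / 8 := by rw [hs]; linarith
    obtain ⟨h1, h2⟩ := hcl z0 (by linarith)
    have h1' : |z0.re - 1 / 2| ≤ 1 / 8 := by
      have := (Complex.abs_re_le_norm (z0 - c))
      rw [Complex.sub_re, hcre] at this
      linarith
    rw [abs_le] at h1'
    by_cases hside : 1 / 2 ≤ z0.re
    · obtain ⟨z, hz1, hz2, hz3⟩ := hgood i t hXg z0 hside (by linarith)
      refine ⟨z, hz1, ?_⟩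
      rw [hFn, sub_eq_add_neg (θ * _) u, hexpX, Complex.sub_re, hcre, abs_of_nonneg (by linarith)]
      calc Q i t ^ ((z.re - 1 / 2) / 2) * X i t ^ (-u)
          ≤ Q i t ^ ((z.re - 1 / 2) / 2) * X i t ^ (-(u / 2)) := by
            gcongr
            linarith
        _ = X i t ^ (-(u / 2)) * Q i t ^ ((z.re - 1 / 2) / 2) := mul_comm _ _
        _ ≤ _ := by gcongr
    · push Not at hside
      set x0 := 1 / 2 - z0.re with hx0def
      obtain ⟨x1, hx1, hx10, hfex⟩ := hlow' i x0 (by linarith) (by linarith)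
      set z0' : ℂ := 1 / 2 + x1 + z0.im * I with hz0'
      have e1 : z0'.re = 1 / 2 + x1 := by simp [hz0']
      have e2 : z0'.im = z0.im := by simp [hz0']
      obtain ⟨z', hz1, hz2, hz3⟩ := hgood' i t hXh z0' (by rw [e1]; linarith) (by rw [e2]; linarith)
      set x := z'.re - 1 / 2 with hx
      have hx0 : 0 ≤ x := by linarith
      have hxd : |z'.re - z0'.re| ≤ ρ₁ := by
        have := (Complex.abs_re_le_norm (z' - z0')).trans hz1
        rwa [Complex.sub_re] at this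
      have hyd : |z'.im - z0'.im| ≤ ρ₁ := by
        have := (Complex.abs_im_le_norm (z' - z0')).trans hz1
        rwa [Complex.sub_im] at this
      have hxx1 : |x - x1| ≤ ρ₁ := by
        have : x - x1 = z'.re - z0'.re := by rw [hx, e1]; ring
        rw [this]; exact hxd
      rw [e2] at hyd
      have hx10' := abs_le.mp hx10
      have hxx1' := abs_le.mp hxx1
      have hyd' := abs_le.mp hyd
      have h2' := abs_le.mp h2
      have hx1' : x ≤ 1 := by linarith
      set z : ℂ := 1 / 2 - x + z'.im * I with hzdef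
      have e3 : z.re = 1 / 2 - x := by simp [hzdef]
      have e4 : z.im = z'.im := by simp [hzdef]
      have e6 : z' = 1 / 2 + x + z'.im * I := by
        apply Complex.ext
        · simp [hx]
        · simp
      refine ⟨z, ?_, ?_⟩
      · have e7 : z - z0 = -(starRingEnd ℂ) (z' - z0') - ((x1 - x0 : ℝ) : ℂ) := by
          apply Complex.ext
          · rw [Complex.sub_re, Complex.sub_re, Complex.neg_re, Complex.conj_re, Complex.sub_re,
              Complex.ofReal_re, e3, e1, hx, hx0def]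
            ring
          · rw [Complex.sub_im, Complex.sub_im, Complex.neg_im, Complex.conj_im, Complex.sub_im,
              Complex.ofReal_im, e4, e2]
            ring
        rw [e7]
        refine (norm_sub_le _ _).trans ?_
        rw [norm_neg, Complex.norm_conj, Complex.norm_real, Real.norm_eq_abs]
        linarith
      · have h5 := hfex x z'.im hxx1
        rw [← e6, ← hzdef] at h5
        have h7 : Q i t / 2 ^ m ≤ Q i z'.im := by
          rw [div_le_iff₀ (by positivity), mul_comm]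
          apply near_shift hGi.Q1 hGi.Qs
          rw [abs_le]
          constructor <;> linarith
        have h8 : Q i t ^ x / 2 ^ m ≤ Q i z'.im ^ x := by
          have h9 : (Q i t / 2 ^ m) ^ x ≤ Q i z'.im ^ x :=
            Real.rpow_le_rpow (by positivity) h7 hx0
          refine le_trans ?_ h9
          rw [Real.div_rpow hQ0.le (by positivity)]
          have h10 := two_pow_rpow (m := m) hx0 hx1'
          gcongr
        have h9 : Q i t ^ x / 2 ^ m * X i t ^ (-(u / 2)) ≤ K₂ * ‖f i z‖ := by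
          refine le_trans ?_ h5
          have hQz' : 0 < Q i z'.im := by have := hGi.Q1 z'.im; linarith
          exact mul_le_mul h8 hz3 (by positivity) (by positivity)
        rw [hFn, sub_eq_add_neg (θ * _) u, hexpX, Complex.sub_re, hcre, e3]
        have e8 : (1 / 2 - x - 1 / 2 : ℝ) = -x := by ring
        rw [e8, abs_neg, abs_of_nonneg hx0]
        have h10 : Q i t ^ (x / 2) * X i t ^ (-(u / 2)) ≤ D' * (‖f i z‖ * Q i t ^ (-x / 2)) := by
          calc Q i t ^ (x / 2) * X i t ^ (-(u / 2)) =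
                (Q i t ^ x * Q i t ^ (-x / 2)) * X i t ^ (-(u / 2)) := by
                rw [← Real.rpow_add hQ0]; congr 2; ring
            _ = 2 ^ m * (Q i t ^ x / 2 ^ m * X i t ^ (-(u / 2))) * Q i t ^ (-x / 2) := by
                field_simp
            _ ≤ 2 ^ m * (K₂ * ‖f i z‖) * Q i t ^ (-x / 2) := by gcongr
            _ = _ := by rw [hD']; ring
        have h11 : Q i t ^ (x / 2) * X i t ^ (-u) * X i t ^ (u / 2) =
            Q i t ^ (x / 2) * X i t ^ (-(u / 2)) := by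
          rw [mul_assoc, ← Real.rpow_add hX0]; congr 2; ring
        rw [← h11] at h10
        have h12 : Q i t ^ (x / 2) * X i t ^ (-u) * X i t ^ (u / 2) ≤
            (‖f i z‖ * Q i t ^ (-x / 2)) * X i t ^ (u / 2) := by
          refine h10.trans ?_
          rw [mul_comm D']
          gcongr
        exact le_of_mul_le_mul_right h12 (Real.rpow_pos_of_pos hX0 _)
  obtain ⟨Z, hZb, hZn⟩ := circle_count hUo hθ0 hθ1 hFa hball hr₁0 hr₁R hs0 hρ0 hsR hu0.le hu0.le
    hL0 hUp hLow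
  have hord : ∀ w ∈ Z, analyticOrderNatAt F w = analyticOrderNatAt (f i) w := by
    intro w hw
    have hwU : w ∈ U := hball (ball_subset_closedBall (hZb w hw))
    have h1 : analyticOrderAt F w = analyticOrderAt (f i) w := by
      have h2 : F = E * f i := rfl
      rw [h2, analyticOrderAt_mul (hEd.analyticAt w) (hfa w hwU),
        (hEd.analyticAt w).analyticOrderAt_eq_zero.mpr (hE0 w), zero_add]
    rw [analyticOrderNatAt, analyticOrderNatAt, h1]
  refine ⟨Z, hZb, ?_⟩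
  rw [Finset.sum_congr rfl hord] at hZn
  set n : ℝ := ((∑ z ∈ Z, analyticOrderNatAt (f i) z : ℕ) : ℝ) with hn
  have hn0 : 0 ≤ n := Nat.cast_nonneg _
  have h1 : (2 * θ * (s - r₁) / Real.pi - τ * κ' / 2) * L ≤ n * (τ / (1 - τ)) := by
    refine le_trans ?_ (hZn.trans (mul_le_mul_of_nonneg_left hlogr hn0))
    apply mul_le_mul_of_nonneg_right _ hL0.le
    linarith
  have h2 : 2 * θ * (s - r₁) / Real.pi = 2 * θ * (R / Real.pi) * (τ * (1 - τ)) := by
    rw [hs, hr₁]; field_simp; ring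
  rw [h2] at h1
  have h1τ : 0 < 1 - τ := by linarith
  have h3 : (2 * θ * (R / Real.pi) * (τ * (1 - τ)) - τ * κ' / 2) * L * (1 - τ) ≤ n * τ := by
    calc (2 * θ * (R / Real.pi) * (τ * (1 - τ)) - τ * κ' / 2) * L * (1 - τ)
        ≤ n * (τ / (1 - τ)) * (1 - τ) := by gcongr
      _ = n * τ := by field_simp
  have h4 : τ * ((R / Real.pi * (1 - τ) * (2 * (θ * L)) - κ' / 2 * L) * (1 - τ)) ≤ τ * n := by
    calc τ * ((R / Real.pi * (1 - τ) * (2 * (θ * L)) - κ' / 2 * L) * (1 - τ)) =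
        (2 * θ * (R / Real.pi) * (τ * (1 - τ)) - τ * κ' / 2) * L * (1 - τ) := by ring
      _ ≤ n * τ := h3
      _ = τ * n := by ring
  have h5 := le_of_mul_le_mul_left h4 hτ0
  rw [hθL] at h5
  refine le_trans ?_ h5
  have h6 : R / Real.pi ≤ 1 / 24 := by
    rw [div_le_iff₀ hπ]; nlinarith
  have h7 : 0 < R / Real.pi := by positivity
  have h8 : κ' * L ≤ κ * L := by gcongr
  have h9 : R / Real.pi * Λ * κ' ≤ 1 / 24 * L * κ' := by gcongr
  have h10 : (R / Real.pi * (1 - τ) * (2 * (Λ / 2)) - κ' / 2 * L) * (1 - τ) =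
      R / Real.pi * Λ - R / Real.pi * Λ * κ' + R / Real.pi * Λ * τ ^ 2 -
        κ' * L / 2 + κ' * L / 2 * τ := by
    rw [hτ]; ring
  rw [h10]
  have h11 : 0 ≤ R / Real.pi * Λ * τ ^ 2 := by positivity
  have h12 : 0 ≤ κ' * L / 2 * τ := by positivity
  have h13 : 0 < κ' * L := by positivity
  linarith

theorem window_count (hG : ∀ i, Base m K (X i) (Q i) (f i)) (hK : 1 ≤ K) (hFar : FarB X f)
    (hLow : FarLow f) (hfe : FELow Q f) (hL : ∀ ε > 0, HB X Q f 0 ε) {δ η κ : ℝ} (hδ : 0 < δ)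
    (hη : 0 < η) (hκ : 0 < κ) :
    ∃ K₀ : ℝ, ∀ i, ∀ t : ℝ, K₀ ≤ X i t → ∃ Z : Finset ℂ,
      (∀ z ∈ Z, |z.re - 1 / 2| ≤ δ ∧ t ≤ z.im ∧ z.im < t + η) ∧
      η / (2 * Real.pi) * Real.log (Q i t) - κ * Real.log (X i t) ≤
        ((∑ z ∈ Z, analyticOrderNatAt (f i) z : ℕ) : ℝ) := by
  classical
  have hπ := Real.pi_pos
  set δ' := min δ (1 / 8) with hδ'
  have hδ'0 : 0 < δ' := lt_min hδ (by norm_num)
  obtain ⟨N, hN⟩ := exists_nat_gt (η / (2 * δ'))
  have hN0 : (0:ℝ) < N := lt_of_le_of_lt (by positivity) hN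
  set R := η / (2 * N) with hR
  have hR0 : 0 < R := by positivity
  have hRδ' : R ≤ δ' := by
    rw [hR, div_le_iff₀ (by positivity)]
    rw [div_lt_iff₀ (by positivity)] at hN
    linarith
  have hRδ : R ≤ δ := hRδ'.trans (min_le_left _ _)
  have hR8 : R ≤ 1 / 8 := hRδ'.trans (min_le_right _ _)
  have hRN : 2 * N * R = η := by rw [hR]; field_simp
  set κ₀ := κ / (2 * N) with hκ₀
  have hκ₀0 : 0 < κ₀ := by positivity
  have hκ₀1 : N * κ₀ = κ / 2 := by rw [hκ₀]; field_simp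
  obtain ⟨K₀, hK₀⟩ := disc_count hG hK hFar hLow hfe hL hR0 hR8 hκ₀0
  set Y := (1 + η) ^ m with hY
  have hY1 : 1 ≤ Y := one_le_pow₀ (by linarith)
  have hlY : 0 ≤ Real.log Y := Real.log_nonneg hY1
  set A := (η / (2 * Real.pi) + κ / 2) * Real.log Y with hA
  refine ⟨max 1 (max (K₀ * Y) (Real.exp (A / (κ / 2)))), ?_⟩
  intro i t hC
  have hGi := hG i
  have hX1 : 1 ≤ X i t := (le_max_left _ _).trans hC
  have hX0 : 0 < X i t := by linarith
  have hQ1 := hGi.Q1 t
  have hQ0 : 0 < Q i t := by linarith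
  have hXK : K₀ * Y ≤ X i t := ((le_max_left _ _).trans (le_max_right _ _)).trans hC
  have hXe := ((le_max_right _ _).trans (le_max_right _ _)).trans hC
  set L := Real.log (X i t) with hLdef
  set Λ := Real.log (Q i t) with hΛ
  have hLY : A ≤ κ / 2 * L := by
    have h1 : A / (κ / 2) ≤ L := by
      rw [hLdef, Real.le_log_iff_exp_le hX0]; exact hXe
    rw [div_le_iff₀ (by positivity)] at h1
    linarith
  set tj : ℕ → ℝ := fun j => t + (2 * j + 1) * R with htj
  have htj1 : ∀ j ∈ Finset.range N, |t - tj j| ≤ η := by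
    intro j hj
    rw [Finset.mem_range] at hj
    have h1 : (j : ℝ) + 1 ≤ N := by exact_mod_cast hj
    have h2 : (0:ℝ) ≤ j := Nat.cast_nonneg j
    have h3 : t - tj j = -((2 * j + 1) * R) := by rw [htj]; ring
    rw [h3, abs_neg, abs_of_nonneg (by positivity), ← hRN]
    gcongr
    linarith
  have hpw : ∀ j ∈ Finset.range N, (1 + |t - tj j|) ^ m ≤ Y := by
    intro j hj
    have h1 := htj1 j hj
    rw [hY]
    have h2 : 1 + |t - tj j| ≤ 1 + η := by linarith
    gcongr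
  have hwin : ∀ j ∈ Finset.range N, X i t / Y ≤ X i (tj j) := by
    intro j hj
    rw [div_le_iff₀ (by linarith)]
    refine (hGi.Xs (tj j) t).trans ?_
    have := hGi.X1 (tj j)
    exact mul_le_mul_of_nonneg_left (hpw j hj) (by linarith)
  have hwinQ : ∀ j ∈ Finset.range N, Λ - Real.log Y ≤ Real.log (Q i (tj j)) := by
    intro j hj
    have h1 : Q i t / Y ≤ Q i (tj j) := by
      rw [div_le_iff₀ (by linarith)]
      refine (hGi.Qs (tj j) t).trans ?_
      have := hGi.Q1 (tj j)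
      exact mul_le_mul_of_nonneg_left (hpw j hj) (by linarith)
    have h2 := Real.log_le_log (by positivity) h1
    rwa [Real.log_div hQ0.ne' (by linarith)] at h2
  have hwinX : ∀ j ∈ Finset.range N, Real.log (X i (tj j)) ≤ L + Real.log Y := by
    intro j hj
    have h1 := hGi.X1 (tj j)
    rw [hLdef, ← Real.log_mul hX0.ne' (by linarith)]
    apply Real.log_le_log (by linarith)
    refine (hGi.Xs t (tj j)).trans ?_
    rw [abs_sub_comm]
    exact mul_le_mul_of_nonneg_left (hpw j hj) hX0.le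
  have hwinK : ∀ j ∈ Finset.range N, K₀ ≤ X i (tj j) := by
    intro j hj
    refine le_trans ?_ (hwin j hj)
    rw [le_div_iff₀ (by linarith)]
    exact hXK
  choose! Zf hZ1 hZ2 using fun j (hj : j ∈ Finset.range N) => hK₀ i (tj j) (hwinK j hj)
  have hZb : ∀ j ∈ Finset.range N, ∀ z ∈ Zf j, |z.re - 1 / 2| < R ∧ t + 2 * j * R < z.im ∧
      z.im < t + (2 * j + 2) * R := by
    intro j hj z hz
    have h1 := hZ1 j hj z hz
    rw [mem_ball, dist_eq_norm] at h1
    have h2 := (Complex.abs_re_le_norm _).trans_lt h1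
    have h3 := (Complex.abs_im_le_norm _).trans_lt h1
    simp only [Complex.sub_re, Complex.add_re, Complex.mul_re, Complex.ofReal_re, Complex.I_re,
      mul_zero, Complex.ofReal_im, Complex.I_im, mul_one, sub_self, add_zero, Complex.sub_im,
      Complex.add_im, Complex.mul_im] at h2 h3
    have e1 : ((1 / 2 : ℂ)).re = 1 / 2 := by simp
    have e2 : ((1 / 2 : ℂ)).im = 0 := by simp
    rw [e1] at h2
    rw [e2, abs_lt] at h3
    refine ⟨h2, ?_, ?_⟩
    · have := h3.1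
      simp only [htj] at this
      linarith
    · have := h3.2
      simp only [htj] at this
      linarith
  have hdis : ((Finset.range N : Finset ℕ) : Set ℕ).PairwiseDisjoint Zf := by
    intro j hj j' hj' hne
    rw [Function.onFun, Finset.disjoint_left]
    intro w hw hw'
    apply hne
    have h1 := hZb j hj w hw
    have h2 := hZb j' hj' w hw'
    have key : ∀ a b : ℕ, t + 2 * a * R < w.im → w.im < t + (2 * b + 2) * R → a ≤ b := by
      intro a b h3 h4
      have h5 : (a:ℝ) * R < (b + 1) * R := by linarith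
      have h6 := lt_of_mul_lt_mul_right h5 hR0.le
      have h7 : a < b + 1 := by exact_mod_cast h6
      omega
    exact le_antisymm (key j j' h1.2.1 h2.2.2) (key j' j h2.2.1 h1.2.2)
  refine ⟨(Finset.range N).biUnion Zf, ?_, ?_⟩
  · intro z hz
    rw [Finset.mem_biUnion] at hz
    obtain ⟨j, hj, hz⟩ := hz
    obtain ⟨h1, h2, h3⟩ := hZb j hj z hz
    rw [Finset.mem_range] at hj
    have h4 : (j : ℝ) + 1 ≤ N := by exact_mod_cast hj
    have h5 : (0:ℝ) ≤ j := Nat.cast_nonneg j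
    refine ⟨by linarith, ?_, ?_⟩
    · have : 0 ≤ 2 * (j:ℝ) * R := by positivity
      linarith
    · have : (2 * (j:ℝ) + 2) * R ≤ η := by
        rw [← hRN]; gcongr; linarith
      linarith
  · rw [Finset.sum_biUnion hdis]
    have h1 : ∀ j ∈ Finset.range N, R / Real.pi * (Λ - Real.log Y) - κ₀ * (L + Real.log Y) ≤
        ((∑ z ∈ Zf j, analyticOrderNatAt (f i) z : ℕ) : ℝ) := by
      intro j hj
      refine le_trans ?_ (hZ2 j hj)
      have h2 := hwinQ j hj
      have h3 := hwinX j hj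
      have h4 : R / Real.pi * (Λ - Real.log Y) ≤ R / Real.pi * Real.log (Q i (tj j)) := by gcongr
      have h5 : κ₀ * Real.log (X i (tj j)) ≤ κ₀ * (L + Real.log Y) := by gcongr
      linarith
    have h2 := Finset.sum_le_sum h1
    rw [Finset.sum_const, Finset.card_range, nsmul_eq_mul] at h2
    have h3 : ((∑ j ∈ Finset.range N, ∑ z ∈ Zf j, analyticOrderNatAt (f i) z : ℕ) : ℝ) =
        ∑ j ∈ Finset.range N, ((∑ z ∈ Zf j, analyticOrderNatAt (f i) z : ℕ) : ℝ) := by
      push_cast; rfl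
    rw [h3]
    refine le_trans ?_ h2
    have h4 : (N:ℝ) * (R / Real.pi) = η / (2 * Real.pi) := by
      rw [← hRN]; field_simp
    have h5 : (N:ℝ) * (R / Real.pi * (Λ - Real.log Y) - κ₀ * (L + Real.log Y)) =
        (N * (R / Real.pi)) * Λ - (N * κ₀) * L - (N * (R / Real.pi) + N * κ₀) * Real.log Y := by
      ring
    rw [h5, h4, hκ₀1, ← hA]
    linarith

end family

end Pool.Agent.H61.NL
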