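import Pool.Agent.H61.NL.Base
import Pool.Agent.H61.GLH.SubMean

/-! Under the Lindelof bound every small disc to the right of the critical line contains a point
where the function is not small. -/

set_option autoImplicit false

open Complex Set Filter Topology Metric

namespace Pool.Agent.H61.NL

open Pool.Agent.H61.GLH (arc_bound)

section family

variable {ι : Type*} {m : ℕ} {K : ℝ} {X Q : ι → ℝ → ℝ} {f : ι → ℂ → ℂ}

/-- Lower bounds far to the right. -/
def FarLow (f : ι → ℂ → ℂ) : Prop :=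
  ∃ σ₁ c : ℝ, 0 < c ∧ ∀ i, ∀ s : ℂ, σ₁ ≤ s.re → c ≤ ‖f i s‖

theorem good_points (hG : ∀ i, Base m K (X i) (Q i) (f i)) (hK : 1 ≤ K) (hFar : FarB X f)
    (hLow : FarLow f) (hL : ∀ ε > 0, HB X Q f 0 ε) {ρ κ : ℝ} (hρ : 0 < ρ) (hκ : 0 < κ) :
    ∃ K₀ : ℝ, ∀ i, ∀ t : ℝ, K₀ ≤ X i t → ∀ z0 : ℂ, 1 / 2 ≤ z0.re →
      |z0.im - t| ≤ 1 → ∃ z : ℂ, ‖z - z0‖ ≤ ρ ∧ 1 / 2 ≤ z.re ∧ X i t ^ (-κ) ≤ ‖f i z‖ := by
  have hπ := Real.pi_pos
  have hπ3 := Real.pi_gt_three
  obtain ⟨σ₁, c₀, hc₀, hlow⟩ := hLow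
  set R := max σ₁ 1 with hR
  have hR1 : 1 ≤ R := le_max_right _ _
  have hRσ : σ₁ ≤ R := le_max_left _ _
  have hR0 : 0 < R := by linarith
  set ρ' := min ρ 1 with hρ'
  have hρ'0 : 0 < ρ' := lt_min hρ one_pos
  have hρ'1 : ρ' ≤ 1 := min_le_right _ _
  have hρ'ρ : ρ' ≤ ρ := min_le_left _ _
  set δ := ρ' / (2 * R) with hδ
  have hδ0 : 0 < δ := by positivity
  have hRδ : R * δ = ρ' / 2 := by rw [hδ]; field_simp
  have hδπ : δ ≤ Real.pi := by
    have : δ ≤ R * δ := le_mul_of_one_le_left hδ0.le hR1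
    linarith
  set ε := δ * κ / (2 * Real.pi) with hε
  have hε0 : 0 < ε := by positivity
  obtain ⟨B, hB, hHB⟩ := right_bound hG hK hFar hε0 (hL ε hε0)
  set W := (R + 2) ^ m with hW
  have hW1 : 1 ≤ W := one_le_pow₀ (by linarith)
  set D := Real.log B + ε * Real.log W - Real.log (min c₀ 1) with hD
  refine ⟨max 1 (Real.exp ((D + 1) / ε)), ?_⟩
  intro i t hC z0 hz1 hz3
  have hGi := hG i
  have hX1 : 1 ≤ X i t := (le_max_left _ _).trans hC
  have hXe : Real.exp ((D + 1) / ε) ≤ X i t := (le_max_right _ _).trans hC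
  have hX0 : 0 < X i t := by linarith
  set Λ := Real.log (X i t) with hΛ
  have hΛ0 : 0 ≤ Λ := Real.log_nonneg hX1
  have hΛD : D + 1 ≤ ε * Λ := by
    have h1 : (D + 1) / ε ≤ Λ := by rw [hΛ, Real.le_log_iff_exp_le hX0]; exact hXe
    rw [div_le_iff₀ hε0] at h1
    linarith
  by_contra hcon
  push Not at hcon
  set c : ℂ := z0 + ((ρ' / 2 + R : ℝ) : ℂ) with hc
  have hcre : c.re = z0.re + (ρ' / 2 + R) := by simp [hc]
  have hcim : c.im = z0.im := by simp [hc]
  have hball : ∀ z ∈ closedBall c R, 1 / 2 ≤ z.re ∧ |z.im - t| ≤ R + 1 := by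
    intro z hz
    rw [mem_closedBall, dist_eq_norm] at hz
    have h1 := (Complex.abs_re_le_norm (z - c)).trans hz
    have h2 := (Complex.abs_im_le_norm (z - c)).trans hz
    rw [Complex.sub_re, hcre] at h1
    rw [Complex.sub_im, hcim] at h2
    rw [abs_le] at h1 h2 hz3
    refine ⟨by linarith, ?_⟩
    rw [abs_le]; constructor <;> linarith
  have hU : IsOpen {z : ℂ | 0 < z.re} := isOpen_lt continuous_const Complex.continuous_re
  have hfa : AnalyticOnNhd ℂ (f i) (closedBall c |R|) := by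
    rw [abs_of_pos hR0]
    intro z hz
    have hd : DifferentiableOn ℂ (f i) {z : ℂ | 0 < z.re} :=
      fun z hz => (hGi.diff z hz).differentiableWithinAt
    refine hd.analyticAt (hU.mem_nhds ?_)
    have := (hball z hz).1
    show 0 < z.re
    linarith
  have hc3 : min c₀ 1 ≤ ‖f i c‖ := (min_le_left _ _).trans (hlow i c (by rw [hcre]; linarith))
  have hm0 : 0 < min c₀ 1 := lt_min hc₀ one_pos
  have hc0 : f i c ≠ 0 := by
    intro h0
    rw [h0, norm_zero] at hc3
    linarith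
  set a := Real.log B + ε * (Real.log W + Λ) with ha
  have hlogB : 0 ≤ Real.log B := Real.log_nonneg hB
  have hlogW : 0 ≤ Real.log W := Real.log_nonneg hW1
  have ha0 : 0 ≤ a := by positivity
  have hexpa : Real.exp a = B * (W * X i t) ^ ε := by
    rw [ha, Real.exp_add, Real.exp_log (by linarith), Real.rpow_def_of_pos (by positivity),
      Real.log_mul (by positivity) hX0.ne']
    congr 2
    ring
  have hup : ∀ z ∈ sphere c R, ‖f i z‖ ≤ Real.exp a := by
    intro z hz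
    have hz' := sphere_subset_closedBall hz
    obtain ⟨h1, h2⟩ := hball z hz'
    have h3 := hGi.Xs t z.im
    have hXz := hGi.X1 z.im
    have h4 : X i z.im ≤ W * X i t := by
      calc X i z.im ≤ X i t * (1 + |z.im - t|) ^ m := h3
        _ ≤ X i t * (R + 2) ^ m := by
            have h5 : 1 + |z.im - t| ≤ R + 2 := by linarith
            gcongr
        _ = W * X i t := by rw [hW]; ring
    rw [hexpa]
    refine (hHB i z h1).trans ?_
    gcongr
  have hsmall : ∀ z ∈ sphere c R, ‖z - (c - (R:ℝ))‖ ≤ R * δ → ‖f i z‖ < Real.exp (-(κ * Λ)) := by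
    intro z hz hz'
    have h1 : ‖z - z0‖ ≤ ρ := by
      have e : z - z0 = (z - (c - (R:ℝ))) + ((ρ' / 2 : ℝ) : ℂ) := by
        rw [hc]; push_cast; ring
      rw [e]
      have h2 := norm_add_le (z - (c - (R:ℝ))) ((ρ' / 2 : ℝ) : ℂ)
      rw [Complex.norm_real, Real.norm_of_nonneg (by positivity)] at h2
      linarith
    have h2 := hcon z h1 (hball z (sphere_subset_closedBall hz)).1
    have h3 : X i t ^ (-κ) = Real.exp (-(κ * Λ)) := by
      rw [Real.rpow_def_of_pos hX0]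
      congr 1
      rw [hΛ]; ring
    rwa [h3] at h2
  have hkey := arc_bound (R := R) (δ := δ) (a := a) (b := -(κ * Λ)) hR0 hδ0 hδπ hfa hc0 ha0 hup
    hsmall
  have h1 : Real.log (min c₀ 1) ≤ Real.log ‖f i c‖ := Real.log_le_log hm0 hc3
  have h2 : δ / Real.pi * -(κ * Λ) = -(2 * (ε * Λ)) := by
    rw [hε]; field_simp
  rw [h2] at hkey
  rw [ha] at hkey
  rw [hD] at hΛD
  linarith

end family

end Pool.Agent.H61.NL
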