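import Pool.Agent.H61.NL.Base
import Pool.Agent.H61.NL.GoodPts
import Pool.Agent.H61.NL.Conv
import Pool.Agent.H61.Ray.Strip
import Pool.Agent.H61.Ray.Step
import Pool.Agent.H73.DZ.Cond
import Pool.Agent.H34.DZ.G
import Pool.Agent.H51.DZ.F2
import Pool.Agent.H51.DZ.F6

/-! Families of `L`-data satisfy the hypotheses of the density theorem. -/

set_option autoImplicit false

open Complex Set Filter Topology Metric

namespace Pool.Agent.H61.NL

open Pool.Agent.H23.GLM Pool.Agent.H23.GLH Pool.Agent.H23.DZ Pool.Agent.H61.Ray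
open Pool.Agent.H73.DZ (one_le_Q Q_le_X Q_le X_le)
open Pool.Agent.H51.DZ (exists_far normFE)

variable {m : ℕ}

lemma lq_le_Q (π : LData m) (t : ℝ) : lq π t ≤ 2 ^ m * π.Q t := by
  unfold lq LData.Q
  have h1 : ∏ j, (1 + ‖(1 / 2 + t * I - π.μ j : ℂ)‖) ≤ ∏ j, (2 * (1 + ‖(t : ℂ) * I - π.μ j‖)) := by
    refine Finset.prod_le_prod (fun j _ => by positivity) fun j _ => ?_
    have e : (1 / 2 + t * I - π.μ j : ℂ) = 1 / 2 + (t * I - π.μ j) := by ring
    have h2 : ‖(1 / 2 + t * I - π.μ j : ℂ)‖ ≤ 1 / 2 + ‖(t : ℂ) * I - π.μ j‖ := by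
      rw [e]
      refine (norm_add_le _ _).trans ?_
      norm_num
    have := norm_nonneg ((t : ℂ) * I - π.μ j)
    linarith
  rw [Finset.prod_mul_distrib, Finset.prod_const, Finset.card_univ, Fintype.card_fin] at h1
  calc (π.N : ℝ) * ∏ j, (1 + ‖(1 / 2 + t * I - π.μ j : ℂ)‖) ≤
        π.N * (2 ^ m * ∏ j, (1 + ‖(t : ℂ) * I - π.μ j‖)) := by gcongr
    _ = _ := by ring

/-- The family satisfies the basic hypotheses. -/
theorem exists_base {S : Set (LData m)} (hS : Molteni S) : ∃ K : ℝ, 1 ≤ K ∧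
    ∀ π : S, Base m K (π : LData m).X (π : LData m).Q (π : LData m).F := by
  obtain ⟨A, hA⟩ := exists_adm hS
  have hA1 := hA.one_le_A
  have hAR := AR_ge
  have hΓ := AΓ_pos
  have hAR1 : 1 ≤ AR ^ m := one_le_pow₀ (by linarith)
  have h2m : (1:ℝ) ≤ 2 ^ m := one_le_pow₀ (by norm_num)
  set K := A + AR ^ m * 2 ^ m + 7 * AΓ with hK
  have hK1 : AR ^ m * 2 ^ m ≤ K := by rw [hK]; linarith
  have hK2 : 7 * AΓ ≤ K := by
    have : 0 < AR ^ m * 2 ^ m := by positivity
    rw [hK]; linarith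
  have hK3 : A ≤ K := by
    have : 0 < AR ^ m * 2 ^ m := by positivity
    rw [hK]; linarith
  refine ⟨K, by linarith, ?_⟩
  rintro ⟨π, hπ⟩
  refine ⟨one_le_Q π, Q_le_X π, fun t u => ?_, fun t u => ?_, fun s hs => ?_, fun s hs => ?_,
    fun x u hx hx4 => ?_⟩
  · rw [mul_comm]; exact X_le π t u
  · rw [mul_comm]; exact Q_le π t u
  · have hU : IsOpen {s : ℂ | 0 < s.re} := isOpen_lt continuous_const Complex.continuous_re
    exact (hA.diff ⟨π, hπ⟩ s hs).differentiableAt (hU.mem_nhds hs)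
  · have h1 := hA.grow ⟨π, hπ⟩ s hs
    rw [pow_one] at h1
    have hX := π.one_le_X s.im
    calc ‖π.F s‖ ≤ A * (π.C * (1 + |s.im|) ^ m) := h1
      _ = A * π.X s.im := rfl
      _ ≤ _ := by gcongr
  · have hQ := one_le_Q π u
    rcases hx.eq_or_lt with hx0 | hx0
    · rw [← hx0]
      have e1 : (1 / 2 - ((0 : ℝ) : ℂ) + u * I) = 1 / 2 + ((0 : ℝ) : ℂ) + u * I := by simp
      simp only
      rw [e1, Real.rpow_zero, mul_one]
      have := norm_nonneg (π.F (1 / 2 + ((0 : ℝ) : ℂ) + u * I))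
      exact le_mul_of_one_le_left this (by linarith)
    · by_cases h : Differentiable ℂ π.L
      · simp only
        rw [LData.F_pos h]
        refine (refl_local π h.continuous hx0 (by linarith) u).trans ?_
        have h1 : lq π u ^ x ≤ 2 ^ m * π.Q u ^ x := by
          have hl := one_le_lq π u
          calc lq π u ^ x ≤ (2 ^ m * π.Q u) ^ x :=
                Real.rpow_le_rpow (by linarith) (lq_le_Q π u) hx
            _ = (2 ^ m) ^ x * π.Q u ^ x := Real.mul_rpow (by positivity) (by linarith)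
            _ ≤ _ := by
                have := two_pow_rpow (m := m) hx (by linarith : x ≤ 1)
                gcongr
        have hL0 := norm_nonneg (π.L (1 / 2 + x + u * I))
        calc AR ^ m * lq π u ^ x * ‖π.L (1 / 2 + x + u * I)‖
            ≤ AR ^ m * (2 ^ m * π.Q u ^ x) * ‖π.L (1 / 2 + x + u * I)‖ := by gcongr
          _ = (AR ^ m * 2 ^ m) * π.Q u ^ x * ‖π.L (1 / 2 + x + u * I)‖ := by ring
          _ ≤ _ := by gcongr
      · simp only
        have hQe : 1 + |u| ≤ π.Q u := by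
          rcases π.regular with ⟨h1, _⟩ | ⟨hm, hN, hμ, _⟩
          · exact absurd h1 h
          · unfold LData.Q
            rw [hN, hμ]
            subst hm
            simp
        rw [LData.F_neg h]
        refine (zeta_refl hx0 hx4).trans ?_
        gcongr

/-- Molteni's bound for the family. -/
theorem farB {S : Set (LData m)} (hS : Molteni S) :
    FarB (fun π : S => (π : LData m).X) (fun π : S => (π : LData m).F) := by
  intro τ hτ
  obtain ⟨B, hB⟩ := hS τ hτ
  refine ⟨max B 0, ?_⟩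
  rintro ⟨π, hπ⟩ s hs
  show ‖π.F s‖ ≤ max B 0 * π.X s.im ^ τ
  have hC := π.one_le_C
  have h1 : ‖π.F s‖ ≤ ‖π.L s‖ := by
    by_cases h : Differentiable ℂ π.L
    · rw [LData.F_pos h]
    · obtain ⟨_, _, hL⟩ := LData.zeta_of h
      rw [LData.F_neg h, hL]
      exact norm_Fz_le_zeta (by linarith)
  have h2 : π.C ≤ π.X s.im := by
    unfold LData.X
    have : (1:ℝ) ≤ (1 + |s.im|) ^ m := one_le_pow₀ (by have := abs_nonneg s.im; linarith)
    exact le_mul_of_one_le_right (by linarith) this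
  calc ‖π.F s‖ ≤ ‖π.L s‖ := h1
    _ ≤ B * π.C ^ τ := hB π hπ s hs
    _ ≤ max B 0 * π.C ^ τ := by
        gcongr
        exact le_max_left _ _
    _ ≤ _ := by
        have : 0 ≤ max B 0 := le_max_right _ _
        gcongr

/-- Lower bounds far to the right for the family. -/
theorem farLow {S : Set (LData m)} (hS : FarBounds S) :
    FarLow (fun π : S => (π : LData m).F) := by
  obtain ⟨σ₁, c, hc, h⟩ := hS
  refine ⟨max σ₁ 3, c / 2, by positivity, ?_⟩
  rintro ⟨π, hπ⟩ s hs
  show c / 2 ≤ ‖π.F s‖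
  have hs1 : σ₁ ≤ s.re := (le_max_left _ _).trans hs
  have hs3 : 3 ≤ s.re := (le_max_right _ _).trans hs
  have h1 := (h π hπ s hs1).1
  by_cases hd : Differentiable ℂ π.L
  · rw [LData.F_pos hd]; linarith
  · obtain ⟨_, _, hL⟩ := LData.zeta_of hd
    have hs1 : s ≠ 1 := by
      rintro rfl
      norm_num at hs3
    rw [hL] at h1
    rw [LData.F_neg hd, Fz_eq (by linarith) hs1, norm_mul]
    have hr : 1 / 2 ≤ ‖(s - 1) / (s + 1)‖ := by
      have hpos : 0 < ‖s + 1‖ := norm_pos_iff.mpr (add_one_ne (by linarith))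
      rw [norm_div, le_div_iff₀ hpos]
      have h2 : (‖s + 1‖) ^ 2 ≤ (2 * ‖s - 1‖) ^ 2 := by
        rw [mul_pow, ← Complex.normSq_eq_norm_sq, ← Complex.normSq_eq_norm_sq,
          Complex.normSq_apply, Complex.normSq_apply]
        simp only [sub_re, one_re, sub_im, one_im, add_re, add_im]
        nlinarith [sq_nonneg s.im]
      have h3 := (pow_le_pow_iff_left₀ (norm_nonneg _) (by positivity) two_ne_zero).mp h2
      linarith
    have := norm_nonneg (riemannZeta s)
    nlinarith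

/-- The functional equation as a lower bound. -/
theorem feLow (S : Set (LData m)) :
    FELow (fun π : S => (π : LData m).Q) (fun π : S => (π : LData m).F) := by
  intro ρ hρ hρ8
  have hm : (0:ℝ) < m + 1 := by positivity
  set ρ₁ := ρ / (32 * (m + 1)) with hρ₁
  have hρ₁0 : 0 < ρ₁ := by positivity
  have hρ₁ρ : ρ₁ ≤ ρ / 32 := by
    rw [hρ₁]
    apply div_le_div_of_nonneg_left hρ.le (by norm_num)
    have : (0:ℝ) ≤ m := by positivity
    linarith
  obtain ⟨c, hc, hlow⟩ := Pool.Agent.H34.DZ.g2 1 ρ₁ hρ₁0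
  set P := (c / 2) ^ m with hP
  have hP0 : 0 < P := by positivity
  refine ⟨max 1 (7 * P⁻¹), ρ₁, le_max_left _ _, hρ₁0, by linarith, ?_⟩
  rintro ⟨π, hπ⟩ x0 hx0 hx08
  obtain ⟨r, hr1, hr2, hr3⟩ := exists_far m (fun j => 1 / 2 - (π.μ j).re - x0) (ρ / 4)
    (by positivity)
  refine ⟨x0 + r, by linarith, ?_, ?_⟩
  · rw [add_sub_cancel_left, abs_of_pos (by linarith)]
    linarith
  intro x u hx
  have hx' := abs_le.mp hx
  have hxpos : 0 < x := by linarith
  have hx4 : x ≤ 1 / 4 := by linarith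
  show π.Q u ^ x * ‖π.F (1 / 2 + x + u * I)‖ ≤ max 1 (7 * P⁻¹) * ‖π.F (1 / 2 - x + u * I)‖
  have hfe := normFE m π x u hxpos (Or.inl (by linarith))
  have hQ1 : 0 < π.Q u := by
    have := one_le_Q π u
    linarith
  have hprod : P * (∏ j, (1 + ‖(u : ℂ) * I - π.μ j‖)) ^ x ≤
      ∏ j, ‖ratio (1 / 2 + u * I - π.μ j) x‖ := by
    rw [← Real.finsetProd_rpow _ _ fun j _ => by positivity]
    have e : P = ∏ _j : Fin m, (c / 2) := by
      rw [Finset.prod_const, Finset.card_univ, Fintype.card_fin]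
    rw [e, ← Finset.prod_mul_distrib]
    refine Finset.prod_le_prod (fun j _ => by positivity) fun j _ => ?_
    set z : ℂ := 1 / 2 + u * I - π.μ j with hz
    have hzre : z.re = 1 / 2 - (π.μ j).re := by rw [hz]; simp
    have hzpos : 0 < z.re := by
      rw [hzre]
      have := π.re_μ_lt j
      linarith
    have h3 := hlow x z hxpos (by linarith) hzpos.le (by
      intro n
      rcases Nat.eq_zero_or_pos n with hn | hn
      · subst hn
        have h4 := hr3 j
        simp only [Nat.cast_zero, mul_zero, add_zero]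
        rw [hzre]
        have e2 : ρ / 4 / (4 * (m + 1)) = 2 * ρ₁ := by
          rw [hρ₁]; field_simp; norm_num
        rw [e2] at h4
        have e3 : 1 / 2 - (π.μ j).re - x0 - r = (1 / 2 - (π.μ j).re - x) + (x - (x0 + r)) := by
          ring
        rw [e3] at h4
        have h5 := abs_add_le (1 / 2 - (π.μ j).re - x) (x - (x0 + r))
        linarith
      · have hn' : (1:ℝ) ≤ n := by exact_mod_cast hn
        refine le_trans ?_ (le_abs_self _)
        linarith)
    refine le_trans ?_ h3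
    have h4 : (1 + ‖(u : ℂ) * I - π.μ j‖) / 2 ≤ 1 + ‖z‖ := by
      have : ‖(u : ℂ) * I - π.μ j‖ ≤ ‖z‖ + 1 / 2 := by
        have e2 : (u : ℂ) * I - π.μ j = z - 1 / 2 := by rw [hz]; ring
        rw [e2]
        refine (norm_sub_le _ _).trans ?_
        norm_num
      have := norm_nonneg z
      linarith
    have h5 : ((1 + ‖(u : ℂ) * I - π.μ j‖) / 2) ^ x ≤ (1 + ‖z‖) ^ x :=
      Real.rpow_le_rpow (by positivity) h4 hxpos.le
    rw [Real.div_rpow (by positivity) (by norm_num)] at h5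
    have h6 : (2:ℝ) ^ x ≤ 2 := by
      calc (2:ℝ) ^ x ≤ 2 ^ (1:ℝ) := Real.rpow_le_rpow_of_exponent_le (by norm_num) (by linarith)
        _ = 2 := Real.rpow_one _
    have h7 : (1 + ‖(u : ℂ) * I - π.μ j‖) ^ x / 2 ≤ (1 + ‖(u : ℂ) * I - π.μ j‖) ^ x / 2 ^ x := by
      apply div_le_div_of_nonneg_left (by positivity) (by positivity) h6
    calc c / 2 * (1 + ‖(u : ℂ) * I - π.μ j‖) ^ x
        = c * ((1 + ‖(u : ℂ) * I - π.μ j‖) ^ x / 2) := by ring
      _ ≤ c * (1 + ‖z‖) ^ x := by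
        apply mul_le_mul_of_nonneg_left (h7.trans h5) hc.le
  have hmain : P * π.Q u ^ x * ‖π.L (1 / 2 + x + u * I)‖ ≤ ‖π.L (1 / 2 - x + u * I)‖ := by
    rw [hfe]
    refine mul_le_mul_of_nonneg_right ?_ (norm_nonneg _)
    have e : π.Q u ^ x = (π.N : ℝ) ^ x * (∏ j, (1 + ‖(u : ℂ) * I - π.μ j‖)) ^ x := by
      unfold LData.Q
      rw [Real.mul_rpow (by positivity) (Finset.prod_nonneg fun j _ => by positivity)]
    rw [e]
    calc P * ((π.N : ℝ) ^ x * (∏ j, (1 + ‖(u : ℂ) * I - π.μ j‖)) ^ x)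
        = (π.N : ℝ) ^ x * (P * (∏ j, (1 + ‖(u : ℂ) * I - π.μ j‖)) ^ x) := by ring
      _ ≤ _ := by
        apply mul_le_mul_of_nonneg_left hprod (by positivity)
  have h8 := (norm_L_F π (s := 1 / 2 + x + u * I) (by simp; linarith) (by simp; linarith)).1
  have h9 := (norm_L_F π (s := 1 / 2 - x + u * I) (by simp; linarith) (by simp; linarith)).2
  have hF0 := norm_nonneg (π.F (1 / 2 - x + u * I))
  have hQx : 0 < π.Q u ^ x := Real.rpow_pos_of_pos hQ1 x
  have h10 : P * (π.Q u ^ x * ‖π.F (1 / 2 + x + u * I)‖) ≤ 7 * ‖π.F (1 / 2 - x + u * I)‖ := by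
    calc P * (π.Q u ^ x * ‖π.F (1 / 2 + x + u * I)‖)
        ≤ P * (π.Q u ^ x * ‖π.L (1 / 2 + x + u * I)‖) := by gcongr
      _ = P * π.Q u ^ x * ‖π.L (1 / 2 + x + u * I)‖ := by ring
      _ ≤ _ := hmain.trans h9
  calc π.Q u ^ x * ‖π.F (1 / 2 + x + u * I)‖
      = P⁻¹ * (P * (π.Q u ^ x * ‖π.F (1 / 2 + x + u * I)‖)) := by
        rw [inv_mul_cancel_left₀ hP0.ne']
    _ ≤ P⁻¹ * (7 * ‖π.F (1 / 2 - x + u * I)‖) := by gcongr
    _ = (7 * P⁻¹) * ‖π.F (1 / 2 - x + u * I)‖ := by ring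
    _ ≤ _ := by
        gcongr
        exact le_max_right _ _

/-- The orders of vanishing of `F` and `L` agree in the strip `1 / 4 ≤ Re s ≤ 3 / 4`. -/
lemma order_F (π : LData m) {s : ℂ} (h0 : 1 / 4 ≤ s.re) (h1 : s.re ≤ 3 / 4) :
    analyticOrderNatAt π.F s = analyticOrderNatAt π.L s := by
  by_cases h : Differentiable ℂ π.L
  · rw [LData.F_pos h]
  · obtain ⟨_, _, hL⟩ := LData.zeta_of h
    rw [LData.F_neg h, hL]
    have hs1 : s ≠ 1 := ne_one_of_re_lt (by linarith)
    have hU : {z : ℂ | 0 < z.re ∧ z.re < 1} ∈ 𝓝 s :=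
      ((isOpen_lt continuous_const Complex.continuous_re).inter
        (isOpen_lt Complex.continuous_re continuous_const)).mem_nhds
        ⟨by show 0 < s.re; linarith, by show s.re < 1; linarith⟩
    have hev : Fz =ᶠ[𝓝 s] fun z => riemannZeta z * ((z - 1) / (z + 1)) := by
      filter_upwards [hU] with z hz
      exact Fz_eq hz.1 (ne_one_of_re_lt hz.2)
    have ha1 : AnalyticAt ℂ riemannZeta s := by
      have : DifferentiableOn ℂ riemannZeta {z : ℂ | 0 < z.re ∧ z.re < 1} :=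
        fun z hz => (differentiableAt_riemannZeta (ne_one_of_re_lt hz.2)).differentiableWithinAt
      exact this.analyticAt hU
    have hne : s + 1 ≠ 0 := add_one_ne (by linarith)
    have ha2 : AnalyticAt ℂ (fun z : ℂ => (z - 1) / (z + 1)) s := by
      have h3 : AnalyticAt ℂ (fun z : ℂ => z - 1) s := by fun_prop
      have h4 : AnalyticAt ℂ (fun z : ℂ => z + 1) s := by fun_prop
      exact h3.fun_div h4 hne
    have hne2 : (fun z : ℂ => (z - 1) / (z + 1)) s ≠ 0 :=
      div_ne_zero (sub_ne_zero.mpr hs1) hne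
    have h2 : analyticOrderAt Fz s = analyticOrderAt riemannZeta s := by
      rw [analyticOrderAt_congr hev]
      have e : (fun z => riemannZeta z * ((z - 1) / (z + 1))) =
          riemannZeta * fun z : ℂ => (z - 1) / (z + 1) := rfl
      rw [e, analyticOrderAt_mul ha1 ha2, ha2.analyticOrderAt_eq_zero.mpr hne2, add_zero]
    rw [analyticOrderNatAt, analyticOrderNatAt, h2]

end Pool.Agent.H61.NL
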