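import Pool.Agent.H61.GLH.Step

/-! Abstract data of an `L`-function of any degree, with its local conductor, and convexity. -/

set_option autoImplicit false

open Complex Set Filter Topology Metric

namespace Pool.Agent.H61.NL

open Pool.Agent.H61.GLH (gauss_le strip_max norm_gauss)

/-- Analytic data of an `L`-function `f` of degree `m`, without poles in `Re s > 0`. Here `X` is the
analytic conductor and `Q ≤ X` the conductor in the functional equation, as functions of the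
height. -/
structure Base (m : ℕ) (K : ℝ) (X Q : ℝ → ℝ) (f : ℂ → ℂ) : Prop where
  Q1 : ∀ t, 1 ≤ Q t
  QX : ∀ t, Q t ≤ X t
  Xs : ∀ t u, X u ≤ X t * (1 + |u - t|) ^ m
  Qs : ∀ t u, Q u ≤ Q t * (1 + |u - t|) ^ m
  diff : ∀ s : ℂ, 0 < s.re → DifferentiableAt ℂ f s
  bd : ∀ s : ℂ, 1 / 4 ≤ s.re → ‖f s‖ ≤ K * X s.im
  fe : ∀ x u : ℝ, 0 ≤ x → x ≤ 1 / 4 →
    ‖f (1 / 2 - x + u * I)‖ ≤ K * Q u ^ x * ‖f (1 / 2 + x + u * I)‖

section one

variable {m : ℕ} {K : ℝ} {X Q : ℝ → ℝ} {f : ℂ → ℂ}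

lemma Base.X1 (h : Base m K X Q f) (t : ℝ) : 1 ≤ X t := (h.Q1 t).trans (h.QX t)

lemma shift_rpow {Y : ℝ → ℝ} (h1 : ∀ t, 1 ≤ Y t) (hs : ∀ t u, Y u ≤ Y t * (1 + |u - t|) ^ m)
    {a : ℝ} (ha : 0 ≤ a) (u u0 : ℝ) : Y u ^ a ≤ Y u0 ^ a * (1 + |u - u0|) ^ (m * a) := by
  have h2 : ((1 + |u - u0|) ^ m) ^ a = (1 + |u - u0|) ^ (m * a) := by
    rw [← Real.rpow_natCast, ← Real.rpow_mul (by positivity)]
  have hy := h1 u
  have hy0 := h1 u0
  rw [← h2, ← Real.mul_rpow (by positivity) (by positivity)]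
  exact Real.rpow_le_rpow (by positivity) (hs u0 u) ha

lemma weight2 (h : Base m K X Q f) {a b : ℝ} (ha : 0 ≤ a) (hb : 0 ≤ b) (u u0 : ℝ) :
    Q u ^ a * X u ^ b * Real.exp (-((u - u0) ^ 2)) ≤
      Q u0 ^ a * X u0 ^ b * Real.exp ((m * (a + b)) ^ 2 / 4) := by
  have h1 := shift_rpow h.Q1 h.Qs ha u u0
  have h2 := shift_rpow h.X1 h.Xs hb u u0
  have h3 := gauss_le (a := m * (a + b)) (by positivity) (abs_nonneg (u - u0))
  rw [sq_abs] at h3
  have hQ := h.Q1 u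
  have hX := h.X1 u
  have hQ0 := h.Q1 u0
  have hX0 := h.X1 u0
  have e : (1 + |u - u0|) ^ (m * a) * (1 + |u - u0|) ^ (m * b) = (1 + |u - u0|) ^ (m * (a + b)) := by
    rw [← Real.rpow_add (by positivity)]; congr 1; ring
  calc Q u ^ a * X u ^ b * Real.exp (-((u - u0) ^ 2))
      ≤ (Q u0 ^ a * (1 + |u - u0|) ^ (m * a)) * (X u0 ^ b * (1 + |u - u0|) ^ (m * b)) *
        Real.exp (-((u - u0) ^ 2)) := by gcongr
    _ = Q u0 ^ a * X u0 ^ b * (((1 + |u - u0|) ^ (m * a) * (1 + |u - u0|) ^ (m * b)) *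
        Real.exp (-((u - u0) ^ 2))) := by ring
    _ ≤ _ := by rw [e]; gcongr

lemma weight1 (h : Base m K X Q f) {b : ℝ} (hb : 0 ≤ b) (u u0 : ℝ) :
    X u ^ b * Real.exp (-((u - u0) ^ 2)) ≤ X u0 ^ b * Real.exp ((m * b) ^ 2 / 4) := by
  have := weight2 h le_rfl hb u u0
  simpa using this

end one

lemma strip_closure {a b : ℝ} {z : ℂ} (hz : z ∈ closure (re ⁻¹' Ioo a b)) :
    a ≤ z.re ∧ z.re ≤ b := by
  have := closure_minimal (s := re ⁻¹' Ioo a b) (t := re ⁻¹' Icc a b)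
    (preimage_mono Ioo_subset_Icc_self) (isClosed_Icc.preimage Complex.continuous_re)
  exact this hz

section family

variable {ι : Type*} {m : ℕ} {K : ℝ} {X Q : ι → ℝ → ℝ} {f : ι → ℂ → ℂ}

/-- Upper bounds to the right of `1`. -/
def FarB (X : ι → ℝ → ℝ) (f : ι → ℂ → ℂ) : Prop :=
  ∀ τ > 0, ∃ K' : ℝ, ∀ i, ∀ s : ℂ, 1 + τ ≤ s.re → ‖f i s‖ ≤ K' * X i s.im ^ τ

/-- The bound `Q^a X^b` on the critical line. -/
def HB (X Q : ι → ℝ → ℝ) (f : ι → ℂ → ℂ) (a b : ℝ) : Prop :=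
  ∃ B : ℝ, 1 ≤ B ∧ ∀ i, ∀ t : ℝ, ‖f i (1 / 2 + t * I)‖ ≤ B * Q i t ^ a * X i t ^ b

lemma HB.mono (hG : ∀ i, Base m K (X i) (Q i) (f i)) {a a' b b' : ℝ} (haa : a ≤ a') (hbb : b ≤ b')
    (h : HB X Q f a b) : HB X Q f a' b' := by
  obtain ⟨B, hB, hH⟩ := h
  refine ⟨B, hB, fun i t => (hH i t).trans ?_⟩
  have hQ := (hG i).Q1 t
  have hX := (hG i).X1 t
  gcongr

lemma HB.line {a b B : ℝ} {i : ι}
    (hH : ∀ t : ℝ, ‖f i (1 / 2 + t * I)‖ ≤ B * Q i t ^ a * X i t ^ b) {z : ℂ} (hz : z.re = 1 / 2) :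
    ‖f i z‖ ≤ B * Q i z.im ^ a * X i z.im ^ b := by
  have e : z = 1 / 2 + z.im * I := by
    apply Complex.ext
    · simp [hz]
    · simp
  have := hH z.im
  rwa [← e] at this

theorem conv_gain (hG : ∀ i, Base m K (X i) (Q i) (f i)) (hK : 1 ≤ K) (hFar : FarB X f)
    {a b ε : ℝ} (ha : 0 ≤ a) (hb : 0 ≤ b) (hε : 0 < ε) (h : HB X Q f a b) :
    ∃ B : ℝ, 1 ≤ B ∧ ∀ i, ∀ y : ℝ,
      ‖f i (3 / 4 + y * I)‖ ≤ B * Q i y ^ (a / 2) * X i y ^ (b / 2 + ε) := by
  obtain ⟨B, hB, hH⟩ := h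
  set τ := min (1 / 2) (ε / (1 + a + b)) with hτ
  have hτ0 : 0 < τ := lt_min (by norm_num) (by positivity)
  have hτ1 : τ ≤ 1 / 2 := min_le_left _ _
  have hτ2 : τ * (1 + a + b) ≤ ε := by
    have h1 : τ ≤ ε / (1 + a + b) := min_le_right _ _
    rwa [le_div_iff₀ (by positivity)] at h1
  obtain ⟨K', hK'⟩ := hFar τ hτ0
  set E1 := Real.exp (1 + (m * (a + b)) ^ 2 / 4) with hE1
  set E2 := Real.exp (1 + (m * τ) ^ 2 / 4) with hE2
  have hE1' : 1 ≤ E1 := Real.one_le_exp (by positivity)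
  set D := max (B * E1) (|K'| * E2) with hD
  have hD1 : 1 ≤ D := (one_le_mul_of_one_le_of_one_le hB hE1').trans (le_max_left _ _)
  refine ⟨D, hD1, ?_⟩
  intro i y
  have hGi := hG i
  set Xy := X i y with hXy
  set Qy := Q i y with hQy
  have hX1 : 1 ≤ Xy := hGi.X1 y
  have hQ1 : 1 ≤ Qy := hGi.Q1 y
  have hQX : Qy ≤ Xy := hGi.QX y
  set W := Qy ^ a * Xy ^ b with hW
  have hW1 : 1 ≤ W :=
    one_le_mul_of_one_le_of_one_le (Real.one_le_rpow hQ1 ha) (Real.one_le_rpow hX1 hb)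
  have hW0 : 0 < W := by linarith
  have hlW : 0 ≤ Real.log W := Real.log_nonneg hW1
  set s : ℂ := 3 / 4 + y * I with hs
  have hsre : s.re = 3 / 4 := by simp [hs]
  have hsim : s.im = y := by simp [hs]
  set c : ℝ := Real.log W / (1 / 2 + τ) with hc
  have hc0 : 0 ≤ c := by positivity
  set F : ℂ → ℂ := fun z => Complex.exp ((z - s) ^ 2) *
    Complex.exp ((c : ℂ) * (z - ((1 + τ : ℝ) : ℂ))) * f i z with hF
  have hnF : ∀ z : ℂ, ‖F z‖ = Real.exp ((z.re - 3 / 4) ^ 2) *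
      Real.exp (-((z.im - y) ^ 2)) * Real.exp (c * (z.re - (1 + τ))) * ‖f i z‖ := by
    intro z
    rw [hF]
    simp only
    rw [norm_mul, norm_mul, norm_gauss, hsre, hsim, Complex.norm_exp (↑c * (z - ((1 + τ : ℝ) : ℂ))),
      Complex.re_ofReal_mul, Complex.sub_re, Complex.ofReal_re]
  have hFd : DiffContOnCl ℂ F (re ⁻¹' Ioo (1 / 2) (1 + τ)) := by
    apply DifferentiableOn.diffContOnCl
    intro z hz
    obtain ⟨hz1, hz2⟩ := strip_closure hz
    have e1 : DifferentiableAt ℂ (fun z : ℂ => Complex.exp ((z - s) ^ 2) *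
      Complex.exp ((c : ℂ) * (z - ((1 + τ : ℝ) : ℂ)))) z := by fun_prop
    exact (e1.mul (hGi.diff z (by linarith))).differentiableWithinAt
  have hre : ∀ z : ℂ, 1 / 2 ≤ z.re → z.re ≤ 1 + τ → Real.exp ((z.re - 3 / 4) ^ 2) ≤ Real.exp 1 := by
    intro z hz1 hz2
    apply Real.exp_le_exp.mpr
    nlinarith
  have hpow : ∀ x : ℝ, x ≤ 1 + τ → Real.exp (c * (x - (1 + τ))) ≤ 1 := by
    intro x hx
    rw [Real.exp_le_one_iff]
    apply mul_nonpos_of_nonneg_of_nonpos hc0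
    linarith
  have hXτ : 1 ≤ Xy ^ τ := Real.one_le_rpow hX1 hτ0.le
  have hmain : ‖F s‖ ≤ D * Xy ^ τ := by
    refine strip_max (a := 1 / 2) (b := 1 + τ)
      (B := Real.exp 1 * (K * (Xy ^ (1:ℝ) * Real.exp ((m * 1) ^ 2 / 4)))) (by linarith)
      hFd ?_ ?_ ?_ (by rw [hsre]; norm_num) (by rw [hsre]; linarith)
    · intro z hz1 hz2
      rw [hnF z]
      have e1 := weight1 hGi zero_le_one z.im y
      have e2 := hre z hz1.le hz2.le
      have e3 := hGi.bd z (by linarith)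
      have e5 := hpow z.re hz2.le
      rw [Real.rpow_one] at e1
      have hXz := hGi.X1 z.im
      calc Real.exp ((z.re - 3 / 4) ^ 2) * Real.exp (-((z.im - y) ^ 2)) *
            Real.exp (c * (z.re - (1 + τ))) * ‖f i z‖
          ≤ Real.exp 1 * Real.exp (-((z.im - y) ^ 2)) * 1 * (K * X i z.im) := by gcongr
        _ = Real.exp 1 * (K * (X i z.im * Real.exp (-((z.im - y) ^ 2)))) := by ring
        _ ≤ _ := by gcongr
    · intro z hz
      rw [hnF z]
      have e1 := weight2 hGi ha hb z.im y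
      have e2 := hre z (by rw [hz]) (by rw [hz]; linarith)
      have e3 : ‖f i z‖ ≤ B * Q i z.im ^ a * X i z.im ^ b := HB.line (hH i) hz
      have e5 : Real.exp (c * (z.re - (1 + τ))) = W⁻¹ := by
        rw [hz, hc]
        have : Real.log W / (1 / 2 + τ) * (1 / 2 - (1 + τ)) = -Real.log W := by
          field_simp
          ring
        rw [this, Real.exp_neg, Real.exp_log hW0]
      have hEe : Real.exp 1 * Real.exp ((m * (a + b)) ^ 2 / 4) = E1 := by rw [← Real.exp_add]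
      calc Real.exp ((z.re - 3 / 4) ^ 2) * Real.exp (-((z.im - y) ^ 2)) *
            Real.exp (c * (z.re - (1 + τ))) * ‖f i z‖
          ≤ Real.exp 1 * Real.exp (-((z.im - y) ^ 2)) * W⁻¹ *
            (B * Q i z.im ^ a * X i z.im ^ b) := by
            rw [e5]
            gcongr
        _ = Real.exp 1 * (B * (Q i z.im ^ a * X i z.im ^ b * Real.exp (-((z.im - y) ^ 2)))) *
            W⁻¹ := by ring
        _ ≤ Real.exp 1 * (B * (W * Real.exp ((m * (a + b)) ^ 2 / 4))) * W⁻¹ := by gcongr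
        _ = B * E1 := by
            rw [← hEe]
            field_simp
        _ ≤ D * 1 := by rw [mul_one]; exact le_max_left _ _
        _ ≤ _ := by gcongr
    · intro z hz
      rw [hnF z]
      have e2 := hre z (by rw [hz]; linarith) (by rw [hz])
      have e3 := hK' i z hz.ge
      have e6 := hpow z.re hz.le
      have e1 := weight1 hGi hτ0.le z.im y
      have hXz := hGi.X1 z.im
      have hEe : Real.exp 1 * Real.exp ((m * τ) ^ 2 / 4) = E2 := by rw [← Real.exp_add]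
      calc Real.exp ((z.re - 3 / 4) ^ 2) * Real.exp (-((z.im - y) ^ 2)) *
            Real.exp (c * (z.re - (1 + τ))) * ‖f i z‖
          ≤ Real.exp 1 * Real.exp (-((z.im - y) ^ 2)) * 1 * (|K'| * X i z.im ^ τ) := by
            gcongr
            refine e3.trans ?_
            gcongr
            exact le_abs_self _
        _ = Real.exp 1 * |K'| * (X i z.im ^ τ * Real.exp (-((z.im - y) ^ 2))) := by ring
        _ ≤ Real.exp 1 * |K'| * (Xy ^ τ * Real.exp ((m * τ) ^ 2 / 4)) := by gcongr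
        _ = |K'| * E2 * Xy ^ τ := by rw [← hEe]; ring
        _ ≤ D * Xy ^ τ := by
            gcongr
            exact le_max_right _ _
  have e6 : ‖F s‖ = Real.exp (c * (3 / 4 - (1 + τ))) * ‖f i s‖ := by
    rw [hnF s, hsre, hsim]
    simp
  rw [e6] at hmain
  have e7 : ‖f i s‖ ≤ D * Xy ^ τ * Real.exp (c * (1 / 4 + τ)) := by
    have h1 : Real.exp (c * (3 / 4 - (1 + τ))) * Real.exp (c * (1 / 4 + τ)) = 1 := by
      rw [← Real.exp_add]
      have : c * (3 / 4 - (1 + τ)) + c * (1 / 4 + τ) = 0 := by ring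
      rw [this, Real.exp_zero]
    calc ‖f i s‖ = (Real.exp (c * (3 / 4 - (1 + τ))) * ‖f i s‖) * Real.exp (c * (1 / 4 + τ)) := by
          rw [mul_right_comm, h1, one_mul]
      _ ≤ _ := by gcongr
  have h13 : (1 / 4 + τ) / (1 / 2 + τ) ≤ 1 / 2 + τ := by
    rw [div_le_iff₀ (by positivity)]
    nlinarith
  have e8 : Real.exp (c * (1 / 4 + τ)) ≤ W ^ (1 / 2 + τ) := by
    rw [Real.rpow_def_of_pos hW0]
    apply Real.exp_le_exp.mpr
    have : c * (1 / 4 + τ) = Real.log W * ((1 / 4 + τ) / (1 / 2 + τ)) := by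
      rw [hc]; field_simp
    rw [this]
    gcongr
  have e9 : W ^ (1 / 2 + τ) ≤ Qy ^ (a / 2) * Xy ^ (b / 2 + (a + b) * τ) := by
    have hQ0 : 0 < Qy := by linarith
    have hX0 : 0 < Xy := by linarith
    rw [hW, Real.mul_rpow (by positivity) (by positivity), ← Real.rpow_mul hQ0.le,
      ← Real.rpow_mul hX0.le]
    have h1 : Qy ^ (a * (1 / 2 + τ)) = Qy ^ (a / 2) * Qy ^ (a * τ) := by
      rw [← Real.rpow_add hQ0]; congr 1; ring
    have h2 : Xy ^ (b / 2 + (a + b) * τ) = Xy ^ (a * τ) * Xy ^ (b * (1 / 2 + τ)) := by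
      rw [← Real.rpow_add hX0]; congr 1; ring
    rw [h1, h2, mul_assoc]
    gcongr
  have e10 : Xy ^ τ * Xy ^ (b / 2 + (a + b) * τ) ≤ Xy ^ (b / 2 + ε) := by
    rw [← Real.rpow_add (by linarith)]
    apply Real.rpow_le_rpow_of_exponent_le hX1
    nlinarith
  calc ‖f i s‖ ≤ D * Xy ^ τ * Real.exp (c * (1 / 4 + τ)) := e7
    _ ≤ D * Xy ^ τ * (Qy ^ (a / 2) * Xy ^ (b / 2 + (a + b) * τ)) := by
        gcongr
        exact e8.trans e9
    _ = D * Qy ^ (a / 2) * (Xy ^ τ * Xy ^ (b / 2 + (a + b) * τ)) := by ring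
    _ ≤ _ := by gcongr

/-- A bound on the critical line holds to the right of it. -/
theorem right_bound (hG : ∀ i, Base m K (X i) (Q i) (f i)) (hK : 1 ≤ K) (hFar : FarB X f)
    {ε : ℝ} (hε : 0 < ε) (h : HB X Q f 0 ε) :
    ∃ B : ℝ, 1 ≤ B ∧ ∀ i, ∀ s : ℂ, 1 / 2 ≤ s.re → ‖f i s‖ ≤ B * X i s.im ^ ε := by
  obtain ⟨B, hB, hH⟩ := h
  set τ := min 1 ε with hτ
  have hτ0 : 0 < τ := lt_min one_pos hε
  have hτ1 : τ ≤ 1 := min_le_left _ _
  have hτε : τ ≤ ε := min_le_right _ _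
  obtain ⟨K', hK'⟩ := hFar τ hτ0
  have hfar : ∀ i, ∀ s : ℂ, 2 ≤ s.re → ‖f i s‖ ≤ |K'| * X i s.im ^ ε := by
    intro i s hs
    have hX := (hG i).X1 s.im
    refine (hK' i s (by linarith)).trans ?_
    gcongr
    exact le_abs_self _
  set E := Real.exp (3 + (m * ε) ^ 2 / 4) with hE
  have hE1 : 1 ≤ E := Real.one_le_exp (by positivity)
  set D := max (B * E) (|K'| * E) with hD
  have hD1 : 1 ≤ D := (one_le_mul_of_one_le_of_one_le hB hE1).trans (le_max_left _ _)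
  have hD2 : |K'| ≤ D := by
    refine le_trans ?_ (le_max_right _ _)
    exact le_mul_of_one_le_right (abs_nonneg _) hE1
  refine ⟨D, hD1, ?_⟩
  intro i s hs
  have hGi := hG i
  have hXs := hGi.X1 s.im
  rcases le_or_gt 2 s.re with h2 | h2
  · refine (hfar i s h2).trans ?_
    gcongr
  set F : ℂ → ℂ := fun z => Complex.exp ((z - s) ^ 2) * f i z with hF
  have hnF : ∀ z : ℂ, ‖F z‖ = Real.exp ((z.re - s.re) ^ 2) *
      Real.exp (-((z.im - s.im) ^ 2)) * ‖f i z‖ := by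
    intro z
    rw [hF]
    simp only
    rw [norm_mul, norm_gauss]
  have hFd : DiffContOnCl ℂ F (re ⁻¹' Ioo (1 / 2) 2) := by
    apply DifferentiableOn.diffContOnCl
    intro z hz
    obtain ⟨hz1, hz2⟩ := strip_closure hz
    have e1 : DifferentiableAt ℂ (fun z : ℂ => Complex.exp ((z - s) ^ 2)) z := by fun_prop
    exact (e1.mul (hGi.diff z (by linarith))).differentiableWithinAt
  have hre : ∀ z : ℂ, 1 / 2 ≤ z.re → z.re ≤ 2 → Real.exp ((z.re - s.re) ^ 2) ≤ Real.exp 3 := by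
    intro z hz1 hz2
    apply Real.exp_le_exp.mpr
    nlinarith
  have hFs : F s = f i s := by rw [hF]; simp
  rw [← hFs]
  have hE3 : Real.exp 3 * Real.exp ((m * ε) ^ 2 / 4) = E := by rw [← Real.exp_add]
  have hedge : ∀ (C : ℝ) (z : ℂ), 0 ≤ C → C * E ≤ D → 1 / 2 ≤ z.re → z.re ≤ 2 →
      ‖f i z‖ ≤ C * X i z.im ^ ε → ‖F z‖ ≤ D * X i s.im ^ ε := by
    intro C z hC hCD hz1 hz2 hb
    have e1 := weight1 hGi hε.le z.im s.im
    have e2 := hre z hz1 hz2
    have hXz := hGi.X1 z.im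
    rw [hnF]
    calc Real.exp ((z.re - s.re) ^ 2) * Real.exp (-((z.im - s.im) ^ 2)) * ‖f i z‖
        ≤ Real.exp 3 * Real.exp (-((z.im - s.im) ^ 2)) * (C * X i z.im ^ ε) := by gcongr
      _ = Real.exp 3 * C * (X i z.im ^ ε * Real.exp (-((z.im - s.im) ^ 2))) := by ring
      _ ≤ Real.exp 3 * C * (X i s.im ^ ε * Real.exp ((m * ε) ^ 2 / 4)) := by gcongr
      _ = C * E * X i s.im ^ ε := by rw [← hE3]; ring
      _ ≤ _ := by gcongr
  refine strip_max (a := 1 / 2) (b := 2)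
    (B := Real.exp 3 * (K * (X i s.im ^ (1:ℝ) * Real.exp ((m * 1) ^ 2 / 4)))) (by norm_num)
    hFd ?_ ?_ ?_ hs h2.le
  · intro z hz1 hz2
    rw [hnF]
    have e1 := weight1 hGi zero_le_one z.im s.im
    have e2 := hre z hz1.le hz2.le
    have e3 := hGi.bd z (by linarith)
    have hXz := hGi.X1 z.im
    rw [Real.rpow_one] at e1
    calc Real.exp ((z.re - s.re) ^ 2) * Real.exp (-((z.im - s.im) ^ 2)) * ‖f i z‖
        ≤ Real.exp 3 * Real.exp (-((z.im - s.im) ^ 2)) * (K * X i z.im) := by gcongr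
      _ = Real.exp 3 * (K * (X i z.im * Real.exp (-((z.im - s.im) ^ 2)))) := by ring
      _ ≤ _ := by gcongr
  · intro z hz
    have h3 := HB.line (hH i) hz
    rw [Real.rpow_zero, mul_one] at h3
    exact hedge B z (by linarith) (le_max_left _ _) (by linarith) (by linarith) h3
  · intro z hz
    exact hedge |K'| z (abs_nonneg _) (le_max_right _ _) (by linarith) (by linarith)
      (hfar i z hz.ge)

end family

end Pool.Agent.H61.NL
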