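import Pool.Agent.H61.NL.Base
import Pool.Agent.H61.GLH.DensStep

/-! From near-line zero density to a bound on the critical line, with local conductors. -/

set_option autoImplicit false

open Complex Set Filter Topology Metric

namespace Pool.Agent.H61.NL

open Pool.Agent.H61.GLH (norm_gauss sn cs cs_ne strip_blaschke centre_le riemann_ge wstart
  wstart_disj wstart_dist wstart_abs cosh_cos_cond prod_eq_exp prod_biUnion_le)

lemma total_ge {M : ℕ} {d ε₁ ε₂ η Λ L y : ℝ} {Lq Lx : ℕ × Bool → ℝ} {N : ℕ × Bool → ℕ} {e : ℕ → ℝ}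
    (hd0 : 0 ≤ d) (hd1 : d ≤ 1) (hε2 : ε₂ ≤ ε₁) (hε2' : 0 < ε₂) (hε1' : ε₁ ≤ 1 / 8)
    (hη : 0 < η) (hΛ : 0 ≤ Λ) (hΛL : Λ ≤ L) (hy0 : 0 ≤ y) (hy : y ≤ ε₁ * L) (he : ∀ k, 0 ≤ e k)
    (hN : ∀ p ∈ (Finset.range M) ×ˢ (Finset.univ : Finset Bool),
      d * η / (2 * Real.pi) * Lq p - ε₂ * η * Lx p ≤ (N p : ℝ))
    (hLq : ∀ p ∈ (Finset.range M) ×ˢ (Finset.univ : Finset Bool), Λ - y ≤ Lq p)
    (hLx : ∀ p ∈ (Finset.range M) ×ˢ (Finset.univ : Finset Bool), Lx p ≤ L + y)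
    (hR : Real.pi / 8 - ε₁ ≤ η * ∑ k ∈ Finset.range M, e k) :
    d / 8 * Λ - 2 * ε₁ * L ≤
      ∑ p ∈ (Finset.range M) ×ˢ (Finset.univ : Finset Bool), (N p : ℝ) * e p.1 := by
  have hπ := Real.pi_pos
  have hπ3 := Real.pi_gt_three
  have hπ2 := Real.pi_lt_d2
  have hε1 : 0 < ε₁ := by linarith
  have hL : 0 ≤ L := hΛ.trans hΛL
  set r0 := d / (2 * Real.pi) * (Λ - y) - ε₂ * (L + y) with hr0
  set r := max r0 0 with hr
  have hr00 : 0 ≤ r := le_max_right _ _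
  have hr01 : r0 ≤ r := le_max_left _ _
  have h1 : ∀ p ∈ (Finset.range M) ×ˢ (Finset.univ : Finset Bool), η * r ≤ (N p : ℝ) := by
    intro p hp
    rcases le_total 0 r0 with h | h
    · rw [hr, max_eq_left h, hr0]
      refine le_trans ?_ (hN p hp)
      have h3 := hLq p hp
      have h4 := hLx p hp
      have h5 : d * η / (2 * Real.pi) * (Λ - y) ≤ d * η / (2 * Real.pi) * Lq p := by gcongr
      have h6 : ε₂ * η * Lx p ≤ ε₂ * η * (L + y) := by gcongr
      calc η * (d / (2 * Real.pi) * (Λ - y) - ε₂ * (L + y)) =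
            d * η / (2 * Real.pi) * (Λ - y) - ε₂ * η * (L + y) := by ring
        _ ≤ _ := by linarith
    · rw [hr, max_eq_right h]
      simp
  have h2 : ∑ p ∈ (Finset.range M) ×ˢ (Finset.univ : Finset Bool), η * r * e p.1 ≤
      ∑ p ∈ (Finset.range M) ×ˢ (Finset.univ : Finset Bool), (N p : ℝ) * e p.1 :=
    Finset.sum_le_sum fun p hp => mul_le_mul_of_nonneg_right (h1 p hp) (he _)
  refine le_trans ?_ h2
  rw [← Finset.mul_sum, Finset.sum_product]
  simp only [Finset.sum_const, Finset.card_univ, Fintype.card_bool, nsmul_eq_mul]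
  rw [← Finset.mul_sum]
  have h3 : η * r * (((2 : ℕ) : ℝ) * ∑ k ∈ Finset.range M, e k) =
      2 * r * (η * ∑ k ∈ Finset.range M, e k) := by
    push_cast
    ring
  rw [h3]
  have h4 : 2 * r * (Real.pi / 8 - ε₁) ≤ 2 * r * (η * ∑ k ∈ Finset.range M, e k) := by gcongr
  refine le_trans ?_ h4
  have h5 : 0 ≤ Real.pi / 8 - ε₁ := by linarith
  have h6 : 2 * r0 * (Real.pi / 8 - ε₁) ≤ 2 * r * (Real.pi / 8 - ε₁) := by gcongr
  refine le_trans ?_ h6
  have h7 : 2 * r0 * (Real.pi / 8 - ε₁) = (d / 8 - d * (ε₁ / Real.pi)) * (Λ - y) -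
      ε₂ * (Real.pi / 4 - 2 * ε₁) * (L + y) := by
    rw [hr0]; field_simp; ring
  rw [h7]
  have hq : ε₁ / Real.pi ≤ ε₁ / 3 := by gcongr
  have hq0 : 0 ≤ ε₁ / Real.pi := by positivity
  have h8 : (d / 8 - d * (ε₁ / Real.pi)) * y ≤ 1 / 8 * y := by
    apply mul_le_mul_of_nonneg_right _ hy0
    have : 0 ≤ d * (ε₁ / Real.pi) := by positivity
    linarith
  have h9 : d * (ε₁ / Real.pi) * Λ ≤ ε₁ / 3 * L := by
    have : d * (ε₁ / Real.pi) ≤ ε₁ / 3 := by nlinarith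
    gcongr
  have h10 : ε₂ * (Real.pi / 4 - 2 * ε₁) * (L + y) ≤ ε₁ * (7 / 8) * (9 / 8 * L) := by
    have h11 : L + y ≤ 9 / 8 * L := by nlinarith
    have h12 : Real.pi / 4 - 2 * ε₁ ≤ 7 / 8 := by linarith
    have h13 : 0 ≤ Real.pi / 4 - 2 * ε₁ := by linarith
    gcongr
  have h14 : (d / 8 - d * (ε₁ / Real.pi)) * (Λ - y) = d / 8 * Λ - d * (ε₁ / Real.pi) * Λ -
      (d / 8 - d * (ε₁ / Real.pi)) * y := by ring
  rw [h14]
  have h15 : 0 ≤ ε₁ * L := by positivity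
  linarith

section family

variable {ι : Type*} {m : ℕ} {K : ℝ} {X Q : ι → ℝ → ℝ} {f : ι → ℂ → ℂ}

/-- For arbitrarily small `η` every window of length `η` contains at least
`(d η / (2 π)) log Q - ε η log X` zeros within `ε` of the critical line. -/
def NearDens (X Q : ι → ℝ → ℝ) (f : ι → ℂ → ℂ) (d : ℝ) : Prop :=
  ∀ ε > 0, ∃ η : ℝ, 0 < η ∧ η ≤ ε ∧ ∃ K₀ : ℝ, ∀ i, ∀ t : ℝ, K₀ ≤ X i t →
    ∃ Z : Finset ℂ, (∀ z ∈ Z, |z.re - 1 / 2| ≤ ε ∧ t ≤ z.im ∧ z.im < t + η) ∧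
      d * η / (2 * Real.pi) * Real.log (Q i t) - ε * η * Real.log (X i t) ≤
        ((∑ z ∈ Z, analyticOrderNatAt (f i) z : ℕ) : ℝ)

theorem dens_step (hG : ∀ i, Base m K (X i) (Q i) (f i)) (hK : 1 ≤ K) (hFar : FarB X f)
    {a b d ε : ℝ} (ha : 0 ≤ a) (hb : 0 ≤ b) (hd0 : 0 ≤ d) (hd1 : d ≤ 1) (hε : 0 < ε)
    (hD : NearDens X Q f d) (h : HB X Q f a b) :
    HB X Q f (a / 2 + (1 - d) / 8) (b / 2 + ε) := by
  classical
  have hπ := Real.pi_pos
  have hπ3 := Real.pi_gt_three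
  have hπ2 := Real.pi_lt_d2
  set ε₁ := min (ε / 4) (1 / 8) with hε₁
  have hε₁0 : 0 < ε₁ := lt_min (by positivity) (by norm_num)
  have hε₁1 : ε₁ ≤ 1 / 8 := min_le_right _ _
  have hε₁2 : ε₁ ≤ ε / 4 := min_le_left _ _
  obtain ⟨a₀, ha₀, b₀, hRie⟩ := riemann_ge hε₁0
  set e := min (a₀ / 4) 1 with he
  have he0 : 0 < e := lt_min (by positivity) one_pos
  have he1 : e ≤ 1 := min_le_right _ _
  have hea : e ≤ a₀ / 4 := min_le_left _ _
  set ε₂ := min ε₁ (min (e / 7) (a₀ / 16)) with hε₂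
  have hε₂0 : 0 < ε₂ := lt_min hε₁0 (lt_min (by positivity) (by positivity))
  have hε₂1 : ε₂ ≤ ε₁ := min_le_left _ _
  have hε₂2 : ε₂ ≤ e / 7 := (min_le_right _ _).trans (min_le_left _ _)
  have hε₂3 : ε₂ ≤ a₀ / 16 := (min_le_right _ _).trans (min_le_right _ _)
  obtain ⟨η, hη, hηε, K₀, hZ⟩ := hD ε₂ hε₂0
  set M : ℕ := ⌈b₀ / (2 * Real.pi * η)⌉₊ with hM
  have hMb : b₀ ≤ 2 * Real.pi * η * M := by
    have h1 : b₀ / (2 * Real.pi * η) ≤ M := Nat.le_ceil _
    rw [div_le_iff₀ (by positivity)] at h1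
    linarith
  have hR := hRie η e M hη he0 (by nlinarith) hMb
  set ek : ℕ → ℝ := fun k => -Real.log (Real.tanh (Real.pi * ((k + 1) * η) + e)) with hek
  have hy0 : ∀ k : ℕ, 0 < Real.pi * (((k : ℝ) + 1) * η) + e := by intro k; positivity
  have htanh0 : ∀ k : ℕ, 0 < Real.tanh (Real.pi * (((k : ℝ) + 1) * η) + e) := by
    intro k
    rw [Real.tanh_eq_sinh_div_cosh]
    have := Real.sinh_pos_iff.mpr (hy0 k)
    have := Real.cosh_pos (Real.pi * (((k : ℝ) + 1) * η) + e)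
    positivity
  have hek0 : ∀ k, 0 ≤ ek k := by
    intro k
    have h1 := Real.log_nonpos (htanh0 k).le (Real.tanh_lt_one _).le
    simp only [hek]
    linarith
  obtain ⟨B, hB, hgain⟩ := conv_gain hG hK hFar ha hb hε₁0 h
  set b' := b / 2 + ε₁ with hb'
  have hb'0 : 0 ≤ b' := by positivity
  set G1 := Real.exp (1 / 16) with hG1
  have hG1p : 0 < G1 := Real.exp_pos _
  set Ex := Real.exp ((m * ((1 / 4 + a / 2) + b')) ^ 2 / 4) with hEx
  have hExp : 0 < Ex := Real.exp_pos _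
  set D := G1 * K * B * Ex with hDdef
  have hDp : 0 < D := by positivity
  set Y := (1 + M * η) ^ m with hY
  have hY1 : 1 ≤ Y := by
    have : 0 ≤ (M:ℝ) * η := by positivity
    exact one_le_pow₀ (by linarith)
  have hlY : 0 ≤ Real.log Y := Real.log_nonneg hY1
  set K₁ := max 1 (max (K₀ * Y) (Real.exp (Real.log Y / ε₁))) with hK₁
  have hK₁1 : 1 ≤ K₁ := le_max_left _ _
  refine ⟨max 1 (max D (K * K₁)), le_max_left _ _, ?_⟩
  intro i t
  have hGi := hG i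
  have hX1 := hGi.X1 t
  have hQ1 := hGi.Q1 t
  have hQX := hGi.QX t
  have hX0 : 0 < X i t := by linarith
  have hQ0 : 0 < Q i t := by linarith
  have hd8 : 0 ≤ (1 - d) / 8 := by linarith
  have hP1 : 1 ≤ Q i t ^ (a / 2 + (1 - d) / 8) := Real.one_le_rpow hQ1 (by positivity)
  have hP2 : 1 ≤ X i t ^ (b / 2 + ε) := Real.one_le_rpow hX1 (by positivity)
  set s : ℂ := 1 / 2 + t * I with hs
  have hsre : s.re = 1 / 2 := by simp [hs]
  have hsim : s.im = t := by simp [hs]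
  by_cases hXK : X i t < K₁
  · have h1 := hGi.bd s (by rw [hsre]; norm_num)
    rw [hsim] at h1
    calc ‖f i s‖ ≤ K * X i t := h1
      _ ≤ K * K₁ := by gcongr
      _ ≤ max 1 (max D (K * K₁)) * 1 * 1 := by
          rw [mul_one, mul_one]; exact (le_max_right _ _).trans (le_max_right _ _)
      _ ≤ _ := by gcongr
  push Not at hXK
  have hXK0 : K₀ * Y ≤ X i t := ((le_max_left _ _).trans (le_max_right _ _)).trans hXK
  have hXe : Real.exp (Real.log Y / ε₁) ≤ X i t :=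
    ((le_max_right _ _).trans (le_max_right _ _)).trans hXK
  set L := Real.log (X i t) with hL
  set Λ := Real.log (Q i t) with hΛ
  have hL0 : 0 ≤ L := Real.log_nonneg hX1
  have hΛ0 : 0 ≤ Λ := Real.log_nonneg hQ1
  have hΛL : Λ ≤ L := Real.log_le_log hQ0 hQX
  have hLY : Real.log Y ≤ ε₁ * L := by
    have h1 : Real.log Y / ε₁ ≤ L := by
      rw [hL, Real.le_log_iff_exp_le hX0]; exact hXe
    rw [div_le_iff₀ hε₁0] at h1
    linarith
  by_cases hfs : f i s = 0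
  · rw [hfs, norm_zero]
    positivity
  -- windows
  set P := (Finset.range M) ×ˢ (Finset.univ : Finset Bool) with hP
  have hwd : ∀ p ∈ P, (1 + |wstart t η p - t|) ^ m ≤ Y := by
    intro p hp
    rw [hP, Finset.mem_product, Finset.mem_range] at hp
    have h1 := wstart_abs (t := t) (p := p) hη
    have h2 : ((p.1 : ℝ) + 1) * η ≤ M * η := by
      have : (p.1 : ℝ) + 1 ≤ M := by exact_mod_cast hp.1
      gcongr
    rw [hY]
    gcongr
    linarith
  have hwinX : ∀ p ∈ P, X i t / Y ≤ X i (wstart t η p) := by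
    intro p hp
    rw [div_le_iff₀ (by linarith)]
    refine (hGi.Xs (wstart t η p) t).trans ?_
    have h1 := hGi.X1 (wstart t η p)
    rw [abs_sub_comm]
    exact mul_le_mul_of_nonneg_left (hwd p hp) (by linarith)
  have hwinQ : ∀ p ∈ P, Q i t / Y ≤ Q i (wstart t η p) := by
    intro p hp
    rw [div_le_iff₀ (by linarith)]
    refine (hGi.Qs (wstart t η p) t).trans ?_
    have h1 := hGi.Q1 (wstart t η p)
    rw [abs_sub_comm]
    exact mul_le_mul_of_nonneg_left (hwd p hp) (by linarith)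
  have hwinK : ∀ p ∈ P, K₀ ≤ X i (wstart t η p) := by
    intro p hp
    refine le_trans ?_ (hwinX p hp)
    rw [le_div_iff₀ (by linarith)]
    exact hXK0
  have hwinL : ∀ p ∈ P, Λ - Real.log Y ≤ Real.log (Q i (wstart t η p)) := by
    intro p hp
    have h1 := Real.log_le_log (by positivity) (hwinQ p hp)
    rwa [Real.log_div hQ0.ne' (by linarith)] at h1
  have hwinU : ∀ p ∈ P, Real.log (X i (wstart t η p)) ≤ L + Real.log Y := by
    intro p hp
    have h1 := hGi.X1 (wstart t η p)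
    rw [hL, ← Real.log_mul hX0.ne' (by linarith)]
    apply Real.log_le_log (by linarith)
    refine (hGi.Xs t (wstart t η p)).trans ?_
    exact mul_le_mul_of_nonneg_left (hwd p hp) hX0.le
  choose! Zf hZ1 hZ2 using fun p (hp : p ∈ P) => hZ i (wstart t η p) (hwinK p hp)
  have hdis : (P : Set (ℕ × Bool)).PairwiseDisjoint Zf := by
    intro p hp p' hp' hne
    rw [Function.onFun, Finset.disjoint_left]
    intro w hw hw'
    apply hne
    have h1 := hZ1 p hp w hw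
    have h2 := hZ1 p' hp' w hw'
    exact wstart_disj hη h1.2.1 h1.2.2 h2.2.1 h2.2.2
  set Z := P.biUnion Zf with hZdef
  have hZstrip : ∀ w ∈ Z, |w.re - 1 / 2| < 1 / 4 := by
    intro w hw
    rw [hZdef, Finset.mem_biUnion] at hw
    obtain ⟨p, hp, hw⟩ := hw
    have := (hZ1 p hp w hw).1
    linarith
  -- the function
  set E : ℂ → ℂ := fun z => Complex.exp ((z - s) ^ 2 + ((Λ / 2 : ℝ) : ℂ) * (z - ((1 / 2 : ℝ) : ℂ)))
    with hE
  have hEd : Differentiable ℂ E := by rw [hE]; fun_prop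
  have hE0 : ∀ z, E z ≠ 0 := fun z => Complex.exp_ne_zero _
  have hEn : ∀ z : ℂ, ‖E z‖ = Real.exp ((z.re - 1 / 2) ^ 2) * Real.exp (-((z.im - t) ^ 2)) *
      Q i t ^ ((z.re - 1 / 2) / 2) := by
    intro z
    rw [hE]
    simp only
    rw [Complex.exp_add, norm_mul, norm_gauss, hsre, hsim, Complex.norm_exp, Complex.re_ofReal_mul,
      Complex.sub_re, Complex.ofReal_re, Real.rpow_def_of_pos hQ0]
    congr 2
    rw [hΛ]; ring
  set F : ℂ → ℂ := fun z => E z * f i z with hF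
  have hFn : ∀ z : ℂ, ‖F z‖ = ‖E z‖ * ‖f i z‖ := fun z => norm_mul _ _
  have hEs : ‖E s‖ = 1 := by
    rw [hEn, hsre, hsim]; simp
  have hFs : ‖F s‖ = ‖f i s‖ := by rw [hFn, hEs, one_mul]
  have hFs0 : F s ≠ 0 := mul_ne_zero (hE0 s) hfs
  have hFd : DifferentiableOn ℂ F (re ⁻¹' Ioo (0:ℝ) 1) := by
    intro z hz
    have hz' : 0 < z.re := hz.1
    exact ((hEd z).mul (hGi.diff z hz')).differentiableWithinAt
  have hord : ∀ w ∈ Z, analyticOrderNatAt F w = analyticOrderNatAt (f i) w := by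
    intro w hw
    have hw1 := hZstrip w hw
    rw [abs_lt] at hw1
    have hU : {z : ℂ | 0 < z.re} ∈ 𝓝 w :=
      (isOpen_lt continuous_const Complex.continuous_re).mem_nhds (by
        show 0 < w.re
        linarith)
    have hfa : AnalyticAt ℂ (f i) w := by
      have : DifferentiableOn ℂ (f i) {z : ℂ | 0 < z.re} :=
        fun z hz => (hGi.diff z hz).differentiableWithinAt
      exact this.analyticAt hU
    have hEa : AnalyticAt ℂ E w := hEd.analyticAt w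
    have h1 : analyticOrderAt F w = analyticOrderAt (f i) w := by
      have h2 : F = E * f i := rfl
      rw [h2, analyticOrderAt_mul hEa hfa, hEa.analyticOrderAt_eq_zero.mpr (hE0 w), zero_add]
    rw [analyticOrderNatAt, analyticOrderNatAt, h1]
  -- bounds on the edges
  set V := Q i t ^ (1 / 8 + a / 2) * X i t ^ b' with hV
  have hV0 : 0 < V := by positivity
  have hExa : Real.exp ((m * (a / 2 + b')) ^ 2 / 4) ≤ Ex := by
    apply Real.exp_le_exp.mpr
    have : (m : ℝ) * (a / 2 + b') ≤ m * ((1 / 4 + a / 2) + b') := by gcongr; linarith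
    gcongr
  have hedge : ∀ z : ℂ, (z.re = 1 / 4 ∨ z.re = 3 / 4) → ‖F z‖ ≤ D * V := by
    intro z hz
    have hQz := hGi.Q1 z.im
    have hXz := hGi.X1 z.im
    rcases hz with hz | hz
    · have e0 : z = 1 / 2 - ((1 / 4 : ℝ) : ℂ) + z.im * I := by
        apply Complex.ext
        · simp [hz]; norm_num
        · simp
      have e0' : (1 / 2 + ((1 / 4 : ℝ) : ℂ) + z.im * I : ℂ) = 3 / 4 + z.im * I := by
        push_cast; ring
      have h1 := hGi.fe (1 / 4) z.im (by norm_num) le_rfl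
      rw [← e0, e0'] at h1
      have h2 := hgain i z.im
      have h3 : ‖f i z‖ ≤ K * B * (Q i z.im ^ (1 / 4 + a / 2) * X i z.im ^ b') := by
        calc ‖f i z‖ ≤ K * Q i z.im ^ (1 / 4 : ℝ) * ‖f i (3 / 4 + z.im * I)‖ := h1
          _ ≤ K * Q i z.im ^ (1 / 4 : ℝ) * (B * Q i z.im ^ (a / 2) * X i z.im ^ b') := by
              gcongr
          _ = K * B * ((Q i z.im ^ (1 / 4 : ℝ) * Q i z.im ^ (a / 2)) * X i z.im ^ b') := by ring
          _ = _ := by rw [← Real.rpow_add (by linarith)]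
      have h4 := weight2 hGi (show 0 ≤ 1 / 4 + a / 2 by positivity) hb'0 z.im t
      rw [hFn, hEn, hz]
      have e3 : Real.exp ((1 / 4 - 1 / 2 : ℝ) ^ 2) = G1 := by rw [hG1]; norm_num
      have e4 : Q i t ^ ((1 / 4 - 1 / 2 : ℝ) / 2) * Q i t ^ (1 / 4 + a / 2) =
          Q i t ^ (1 / 8 + a / 2) := by
        rw [← Real.rpow_add hQ0]; congr 1; ring
      rw [e3]
      calc G1 * Real.exp (-((z.im - t) ^ 2)) * Q i t ^ ((1 / 4 - 1 / 2 : ℝ) / 2) * ‖f i z‖
          ≤ G1 * Real.exp (-((z.im - t) ^ 2)) * Q i t ^ ((1 / 4 - 1 / 2 : ℝ) / 2) *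
            (K * B * (Q i z.im ^ (1 / 4 + a / 2) * X i z.im ^ b')) := by gcongr
        _ = G1 * K * B * Q i t ^ ((1 / 4 - 1 / 2 : ℝ) / 2) *
            (Q i z.im ^ (1 / 4 + a / 2) * X i z.im ^ b' * Real.exp (-((z.im - t) ^ 2))) := by ring
        _ ≤ G1 * K * B * Q i t ^ ((1 / 4 - 1 / 2 : ℝ) / 2) *
            (Q i t ^ (1 / 4 + a / 2) * X i t ^ b' * Ex) := by gcongr
        _ = D * ((Q i t ^ ((1 / 4 - 1 / 2 : ℝ) / 2) * Q i t ^ (1 / 4 + a / 2)) * X i t ^ b') := by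
            rw [hDdef]; ring
        _ = _ := by rw [e4]
    · have e0 : z = 3 / 4 + z.im * I := by
        apply Complex.ext
        · simp [hz]
        · simp
      have h2 := hgain i z.im
      rw [← e0] at h2
      have h4 := weight2 hGi (show 0 ≤ a / 2 by positivity) hb'0 z.im t
      rw [hFn, hEn, hz]
      have e3 : Real.exp ((3 / 4 - 1 / 2 : ℝ) ^ 2) = G1 := by rw [hG1]; norm_num
      have e4 : Q i t ^ ((3 / 4 - 1 / 2 : ℝ) / 2) * Q i t ^ (a / 2) = Q i t ^ (1 / 8 + a / 2) := by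
        rw [← Real.rpow_add hQ0]; congr 1; ring
      rw [e3]
      calc G1 * Real.exp (-((z.im - t) ^ 2)) * Q i t ^ ((3 / 4 - 1 / 2 : ℝ) / 2) * ‖f i z‖
          ≤ G1 * Real.exp (-((z.im - t) ^ 2)) * Q i t ^ ((3 / 4 - 1 / 2 : ℝ) / 2) *
            (B * Q i z.im ^ (a / 2) * X i z.im ^ b') := by gcongr
        _ = G1 * Q i t ^ ((3 / 4 - 1 / 2 : ℝ) / 2) *
            (B * (Q i z.im ^ (a / 2) * X i z.im ^ b' * Real.exp (-((z.im - t) ^ 2)))) := by ring
        _ ≤ G1 * Q i t ^ ((3 / 4 - 1 / 2 : ℝ) / 2) *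
            (B * (Q i t ^ (a / 2) * X i t ^ b' * Real.exp ((m * (a / 2 + b')) ^ 2 / 4))) := by
            gcongr
        _ ≤ G1 * Q i t ^ ((3 / 4 - 1 / 2 : ℝ) / 2) *
            (B * (Q i t ^ (a / 2) * X i t ^ b' * Ex)) := by gcongr
        _ = 1 * (G1 * B * Ex * ((Q i t ^ ((3 / 4 - 1 / 2 : ℝ) / 2) * Q i t ^ (a / 2)) *
            X i t ^ b')) := by ring
        _ ≤ K * (G1 * B * Ex * ((Q i t ^ ((3 / 4 - 1 / 2 : ℝ) / 2) * Q i t ^ (a / 2)) *
            X i t ^ b')) := by gcongr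
        _ = D * V := by rw [e4, hDdef, hV]; ring
  have hbd : ∀ z : ℂ, 1 / 4 ≤ z.re → z.re ≤ 3 / 4 → ‖F z‖ ≤
      G1 * K * (X i t ^ (1:ℝ) * Real.exp ((m * 1) ^ 2 / 4)) * Q i t ^ (1 / 8 : ℝ) := by
    intro z h1 h2
    have h3 := hGi.bd z h1
    have h4 := weight1 hGi zero_le_one z.im t
    have hXz := hGi.X1 z.im
    rw [Real.rpow_one] at h4
    rw [hFn, hEn]
    have h5 : Real.exp ((z.re - 1 / 2) ^ 2) ≤ G1 := by
      rw [hG1]
      apply Real.exp_le_exp.mpr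
      nlinarith
    have h6 : Q i t ^ ((z.re - 1 / 2) / 2) ≤ Q i t ^ (1 / 8 : ℝ) := by
      apply Real.rpow_le_rpow_of_exponent_le hQ1
      linarith
    calc Real.exp ((z.re - 1 / 2) ^ 2) * Real.exp (-((z.im - t) ^ 2)) *
          Q i t ^ ((z.re - 1 / 2) / 2) * ‖f i z‖
        ≤ G1 * Real.exp (-((z.im - t) ^ 2)) * Q i t ^ (1 / 8 : ℝ) * (K * X i z.im) := by gcongr
      _ = G1 * K * (X i z.im * Real.exp (-((z.im - t) ^ 2))) * Q i t ^ (1 / 8 : ℝ) := by ring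
      _ ≤ _ := by gcongr
  have hmain := strip_blaschke hFd hbd hedge Z hZstrip hsre hFs0
  have e5 : ∏ w ∈ Z, ‖cs w s‖ ^ analyticOrderNatAt F w =
      ∏ w ∈ Z, ‖cs w s‖ ^ analyticOrderNatAt (f i) w :=
    Finset.prod_congr rfl fun w hw => by rw [hord w hw]
  have e6 : ∏ w ∈ Z, ‖sn w s‖ ^ analyticOrderNatAt F w =
      ∏ w ∈ Z, ‖sn w s‖ ^ analyticOrderNatAt (f i) w :=
    Finset.prod_congr rfl fun w hw => by rw [hord w hw]
  rw [e5, e6, hFs] at hmain
  set T : ℕ × Bool → ℝ := fun p => Real.tanh (Real.pi * ((p.1 + 1) * η) + e) with hT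
  have hsncs : ∀ p ∈ P, ∀ w ∈ Zf p, ‖sn w s‖ ≤ T p * ‖cs w s‖ := by
    intro p hp w hw
    have h1 := hZ1 p hp w hw
    have h2 := wstart_dist hη h1.2.1 h1.2.2
    rw [← hsim] at h2
    exact centre_le hsre (by linarith) h1.1 h2 he0.le (cosh_cos_cond he1 hε₂0.le hε₂2)
  have hprod := prod_biUnion_le (m := fun w => analyticOrderNatAt (f i) w) hdis hsncs
  rw [← hZdef] at hprod
  have hcspos : 0 < ∏ w ∈ Z, ‖cs w s‖ ^ analyticOrderNatAt (f i) w := by
    apply Finset.prod_pos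
    intro w hw
    have := norm_pos_iff.mpr (cs_ne (z := s) (hZstrip w hw) (by rw [hsre]; norm_num))
    positivity
  have hfin : ‖f i s‖ ≤ D * V *
      ∏ p ∈ P, T p ^ (∑ w ∈ Zf p, analyticOrderNatAt (f i) w) := by
    have h1 : ‖f i s‖ * ∏ w ∈ Z, ‖cs w s‖ ^ analyticOrderNatAt (f i) w ≤
        (D * V * ∏ p ∈ P, T p ^ (∑ w ∈ Zf p, analyticOrderNatAt (f i) w)) *
          ∏ w ∈ Z, ‖cs w s‖ ^ analyticOrderNatAt (f i) w := by
      refine hmain.trans ?_
      rw [mul_assoc (D * V)]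
      exact mul_le_mul_of_nonneg_left hprod (by positivity)
    exact le_of_mul_le_mul_right h1 hcspos
  rw [prod_eq_exp (fun p => ∑ w ∈ Zf p, analyticOrderNatAt (f i) w)
    (fun p _ => htanh0 p.1)] at hfin
  have htot := total_ge (M := M) (e := ek) (N := fun p => ∑ w ∈ Zf p, analyticOrderNatAt (f i) w)
    (Lq := fun p => Real.log (Q i (wstart t η p))) (Lx := fun p => Real.log (X i (wstart t η p)))
    hd0 hd1 hε₂1 hε₂0 hε₁1 hη hΛ0 hΛL hlY hLY hek0 hZ2 hwinL hwinU hR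
  have h7 : Real.exp (-∑ p ∈ P, ((∑ w ∈ Zf p, analyticOrderNatAt (f i) w : ℕ) : ℝ) *
      -Real.log (T p)) ≤ Q i t ^ (-(d / 8)) * X i t ^ (2 * ε₁) := by
    rw [Real.rpow_def_of_pos hX0, Real.rpow_def_of_pos hQ0, ← Real.exp_add]
    apply Real.exp_le_exp.mpr
    have h8 : Real.log (Q i t) * -(d / 8) + Real.log (X i t) * (2 * ε₁) =
        -(d / 8 * Λ - 2 * ε₁ * L) := by rw [hΛ, hL]; ring
    rw [h8]
    exact neg_le_neg htot
  calc ‖f i s‖ ≤ D * V * Real.exp (-∑ p ∈ P,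
        ((∑ w ∈ Zf p, analyticOrderNatAt (f i) w : ℕ) : ℝ) * -Real.log (T p)) := hfin
    _ ≤ D * V * (Q i t ^ (-(d / 8)) * X i t ^ (2 * ε₁)) := by gcongr
    _ = D * (Q i t ^ (1 / 8 + a / 2) * Q i t ^ (-(d / 8))) * (X i t ^ b' * X i t ^ (2 * ε₁)) := by
        rw [hV]; ring
    _ = D * Q i t ^ (a / 2 + (1 - d) / 8) * X i t ^ (b' + 2 * ε₁) := by
        rw [← Real.rpow_add hQ0, ← Real.rpow_add hX0]
        congr 3; ring
    _ ≤ D * Q i t ^ (a / 2 + (1 - d) / 8) * X i t ^ (b / 2 + ε) := by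
        apply mul_le_mul_of_nonneg_left _ (by positivity)
        apply Real.rpow_le_rpow_of_exponent_le hX1
        rw [hb']
        linarith
    _ ≤ _ := by
        gcongr
        exact (le_max_left _ _).trans (le_max_right _ _)

/-- **Part A.** Near-line zero density `d` gives the bound `Q^((1 - d) / 4) X^ε`. -/
theorem HB_of_nearDens (hG : ∀ i, Base m K (X i) (Q i) (f i)) (hK : 1 ≤ K) (hFar : FarB X f)
    {d : ℝ} (hd0 : 0 ≤ d) (hd1 : d ≤ 1) (hD : NearDens X Q f d) {ε : ℝ} (hε : 0 < ε) :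
    HB X Q f ((1 - d) / 4) ε := by
  have hd4 : 0 ≤ (1 - d) / 4 := by linarith
  have h0 : HB X Q f 0 1 := by
    refine ⟨K, hK, fun i t => ?_⟩
    have h1 := (hG i).bd (1 / 2 + t * I) (by simp; norm_num)
    simpa using h1
  have hn : ∀ n : ℕ, HB X Q f ((1 - d) / 4) (ε / 2 + 1 / 2 ^ n) := by
    intro n
    induction n with
    | zero =>
      refine HB.mono hG hd4 ?_ h0
      simp only [pow_zero, div_one]
      linarith
    | succ n ih =>
      have h1 := dens_step hG hK hFar hd4 (by positivity) hd0 hd1 (show 0 < ε / 4 by positivity)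
        hD ih
      refine HB.mono hG (le_of_eq ?_) (le_of_eq ?_) h1
      · ring
      · rw [pow_succ]
        field_simp
        ring
  obtain ⟨n, hn'⟩ : ∃ n : ℕ, 1 / 2 ^ n ≤ ε / 2 := by
    obtain ⟨n, hn1⟩ := pow_unbounded_of_one_lt (1 / (ε / 2)) (one_lt_two (α := ℝ))
    refine ⟨n, ?_⟩
    rw [div_le_iff₀ (by positivity)]
    rw [div_lt_iff₀ (by positivity)] at hn1
    linarith
  exact HB.mono hG le_rfl (by linarith) (hn n)

end family

end Pool.Agent.H61.NL
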